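import Pool.Agent.Lib.MP_b4b3cb_nt.Par.Stmt2

/-! The local constant of a tamely ramified representation. -/

namespace Pool.Agent.SelTwo

open NumberField IsDedekindDomain Matrix Module Polynomial

variable {E : Type} [NontriviallyNormedField E] {n : ℕ} {L : Type} [Field L] [NumberField L]

/-- The number of elements of the residue field of the prime of `L` below `𝔓`. -/
noncomputable def nq (𝔓 : Idl L) : ℕ := Ideal.absNorm (𝔓.under (𝓞 L))

/-- The roots of unity of order dividing `q ^ d - 1`. -/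
abbrev Mu (𝔓 : Idl L) (d : ℕ) : Type := rootsOfUnity (nq 𝔓 ^ d - 1) (𝓞 (AlgebraicClosure L))

/-- On inertia, `z` is `χ ∘ θ` with `θ g = g α / α`, `α ^ (q ^ d - 1) = ϖ`, where the character `χ`
of the roots of unity of order dividing `q ^ d - 1` has `d` distinct conjugates `χ ^ q ^ j`, and
`G` is the Gauss sum of `χ⁻¹` and `Ψ ∘ trace`. -/
def Blk (𝔓 : Idl L) (ϖ : L) (Ψ : AddChar (𝓞 L) E) (d : ℕ) (z : Gal L → E) (G : E) : Prop :=
  ∃ (α : AlgebraicClosure L) (χ : Mu 𝔓 d →* E) (y : Mu 𝔓 d → 𝓞 L),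
    0 < d ∧ α ^ (nq 𝔓 ^ d - 1) = algebraMap L _ ϖ ∧
    (∀ g ∈ Ine 𝔓, ∀ x, g α = x.1.1.1 * α → z g = χ x) ∧
    (∀ j, 0 < j → j < d → χ ^ nq 𝔓 ^ j ≠ χ) ∧
    (∀ x, algebraMap _ _ (y x) - ∑ j ∈ Finset.range d, x.1.1 ^ nq 𝔓 ^ j ∈ 𝔓) ∧
    G = ∑ᶠ x, χ x⁻¹ * Ψ (y x)

/-- `a` is the determinant of the map induced by `M` on the quotient by `U`: the matrix `P` is onto
with kernel `U`, and `A` is the matrix of the induced map. -/
def Qd (U : Submodule E (Fin n → E)) (M : Matrix (Fin n) (Fin n) E) (a : E) : Prop :=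
  ∃ (k : ℕ) (P : Matrix (Fin k) (Fin n) E) (A : Matrix (Fin k) (Fin k) E),
    Function.Surjective P.mulVec ∧ (∀ x, P *ᵥ x = 0 ↔ x ∈ U) ∧ P * M = A * P ∧ a = A.det

variable (ρ : Gal L →* Matrix (Fin n) (Fin n) E)

/-- The vectors fixed by `D`. -/
noncomputable def Fx (D : Subgroup (Gal L)) : Submodule E (Fin n → E) :=
  ⨅ g ∈ D, LinearMap.ker (ρ g - 1).mulVecLin

/-- `e` is the local constant of `ρ` at `𝔓` for the additive character `x / ϖ ↦ Ψ x`: the
determinant of minus the geometric Frobenius that fixes a root `(-ϖ) ^ (1 / (q - 1))` on the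
quotient by the invariants of inertia, times the product of minus the Gauss sums of the Frobenius
orbits of tame characters in `ρ`. -/
def Eps (𝔓 : Idl L) (ϖ : L) (Ψ : AddChar (𝓞 L) E) (e : E) : Prop :=
  ∃ (m : ℕ) (d : Fin m → ℕ) (z : Fin m → Gal L → E) (G : Fin m → E) (σ : Gal L)
    (α : AlgebraicClosure L) (a : E),
    (∀ i, Blk 𝔓 ϖ Ψ (d i) (z i) (G i)) ∧
    (∀ g ∈ Ine 𝔓, (ρ g).charpoly = ∏ i, ∏ j ∈ Finset.range (d i), (X - C (z i g ^ nq 𝔓 ^ j))) ∧
    (∀ y, σ • y - y ^ nq 𝔓 ∈ 𝔓) ∧ α ^ (nq 𝔓 - 1) = -algebraMap L _ ϖ ∧ σ α = α ∧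
    Qd (Fx ρ (Ine 𝔓)) (-ρ σ⁻¹) a ∧ e = a * ∏ i, -G i

/-- `T` is a set of odd primes of `L` that contains with a prime every prime over the same prime of
the maximal real subfield; for `w ∈ T` over `v`, `ϖ v` is a uniformiser at `w` that complex
conjugation negates, `Ψ w` is a nontrivial character of the residue field of `w`, and complex
conjugation carries it to the character at the conjugate prime. -/
def Ok [IsCMField L] (T : Finset (HeightOneSpectrum (𝓞 L)))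
    (ϖ : HeightOneSpectrum (𝓞 (maximalRealSubfield L)) → L)
    (Ψ : HeightOneSpectrum (𝓞 L) → AddChar (𝓞 L) E) : Prop :=
  ∀ w ∈ T, (2 ∉ w.asIdeal ∧ ∀ w' : HeightOneSpectrum _,
      w'.under (𝓞 (maximalRealSubfield L)) = w.under _ → w' ∈ T) ∧
    (IsCMField.complexConj L (ϖ (w.under _)) = -ϖ (w.under _) ∧
      w.valuation L (ϖ (w.under _)) = WithZero.exp (-1)) ∧
    Ψ w ≠ 1 ∧ (∀ x ∈ w.asIdeal, Ψ w x = 1) ∧ ∀ w' : HeightOneSpectrum _,
      w'.asIdeal = w.asIdeal.map (IsCMField.ringOfIntegersComplexConj L) →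
      ∀ x, Ψ w' (IsCMField.ringOfIntegersComplexConj L x) = Ψ w x

end Pool.Agent.SelTwo
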