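import Pool.Agent.Lib.MP_b4b3cb_nt.Eps.Loc
import Pool.Agent.Lib.MP_b4b3cb_nt.Eps.Stmt3

/-! The Gauss sums of the statement in terms of a generator of tame inertia. -/

namespace Pool.Agent.EP

open scoped Classical Pointwise
open NumberField Pool.Agent.Stark Pool.Agent.SP Polynomial Finset
open SC hiding Hm Rp V T Two Cob Sel Spl cup dq Cz Sz res gs Ine Dec cyc
open SelTwo

variable {E : Type} [NontriviallyNormedField E] {L : Type} [Field L] [NumberField L] {𝔓 : Idl L}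
  {Ψ : AddChar (𝓞 L) E}

theorem nq_eq {w : Pr L} (hw : Over 𝔓 w) : nq 𝔓 = Ideal.absNorm w.asIdeal := by
  rw [nq, show 𝔓.under (𝓞 L) = w.asIdeal from Ideal.ext fun x => (hw.2 x).symm]

theorem exRes {w : Pr L} (hw : Over 𝔓 w) (h2 : 2 ∉ 𝔓) (h1 : Ψ ≠ 1) (h0 : ∀ x ∈ w.asIdeal, Ψ x = 1) :
    ∃ (κ : Type) (_ : Field κ) (p : ℕ) (_ : Fact p.Prime) (_ : CharP κ p)
      (π : 𝓞 (AlgebraicClosure L) →+* κ) (Φ : κ → E), (∀ x, π x = 0 ↔ x ∈ 𝔓) ∧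
      (∀ y, Φ (π (algebraMap _ _ y)) = Ψ y) ∧ AC p (nq 𝔓) Φ ∧
      (∀ x, x ^ nq 𝔓 = x → ∃ y : 𝓞 L, π (algebraMap _ _ y) = x) ∧ Odd p ∧
      ∃ ξ : E, IsPrimitiveRoot ξ p := by
  have := hw.1
  have := w.isMaximal
  let _ := Ideal.Quotient.field 𝔓
  let _ := Ideal.Quotient.field w.asIdeal
  have : Finite (𝓞 L ⧸ w.asIdeal) := Ideal.finiteQuotientOfFreeOfNeBot _ w.ne_bot
  let _ := Fintype.ofFinite (𝓞 L ⧸ w.asIdeal)
  have c : nq 𝔓 = Fintype.card (𝓞 L ⧸ w.asIdeal) := by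
    rw [nq_eq hw, Ideal.absNorm_apply, Submodule.cardQuot_apply, Nat.card_eq_fintype_card]
  let φ : 𝓞 L ⧸ w.asIdeal →+* _ := Ideal.Quotient.lift _ ((Ideal.Quotient.mk 𝔓).comp
    (algebraMap _ _)) fun x hx => Ideal.Quotient.eq_zero_iff_mem.2 ((hw.2 x).1 hx)
  obtain ⟨p, _, f, hp, hf⟩ := FiniteField.card' (𝓞 L ⧸ w.asIdeal)
  have := charP_of_injective_ringHom φ.injective p
  let Φ := Function.extend (fun y : 𝓞 L => Ideal.Quotient.mk 𝔓 (algebraMap _ _ y)) Ψ 0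
  have v : ∀ y, Φ (Ideal.Quotient.mk 𝔓 (algebraMap _ _ y)) = Ψ y :=
    Function.FactorsThrough.extend_apply (fun x y h => by
      rw [← sub_add_cancel x y, Ψ.map_add_eq_mul, h0 _ ((hw.2 _).2 (by
        rw [map_sub]; exact Ideal.Quotient.eq.1 h)), one_mul]) _
  have s : ∀ x, x ^ nq 𝔓 = x → ∃ y : 𝓞 L, Ideal.Quotient.mk 𝔓 (algebraMap _ _ y) = x := by
    intro x hx
    obtain ⟨y, rfl⟩ := (splits_iff_card_roots.2 (by
      rw [FiniteField.roots_X_pow_card_sub_X, FiniteField.X_pow_card_sub_X_natDegree_eq _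
        Fintype.one_lt_card]; rfl)).mem_range_of_isRoot
      (FiniteField.X_pow_card_sub_X_ne_zero _ Fintype.one_lt_card) (i := φ) (x := x)
      (by simpa [← c, sub_eq_zero] using hx)
    obtain ⟨z, rfl⟩ := Ideal.Quotient.mk_surjective y
    exact ⟨z, rfl⟩
  have o : Odd p := hp.odd_of_ne_two fun e => h2 (Ideal.Quotient.eq_zero_iff_mem.1 (by
    exact_mod_cast e ▸ CharP.cast_eq_zero _ p))
  obtain ⟨y, hy⟩ := DFunLike.ne_iff.1 h1
  have := Fact.mk hp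
  refine ⟨_, _, p, this, inferInstance, _, Φ, fun x => Ideal.Quotient.eq_zero_iff_mem, v,
    ⟨⟨f, c.trans hf⟩, c ▸ Fintype.one_lt_card, by rw [c, hf]; exact o.pow, by simpa using v 0,
      fun a b ha hb => ?_, _, ?_, (v y).trans_ne hy⟩, s, o, Ψ y, ?_⟩
  · obtain ⟨a, rfl⟩ := s a ha
    obtain ⟨b, rfl⟩ := s b hb
    rw [← map_add, ← map_add, v, v, v, Ψ.map_add_eq_mul]
  · rw [c]
    exact (map_pow φ (Ideal.Quotient.mk _ y) _).symm.trans (congrArg φ (FiniteField.pow_card _))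
  · have := IsPrimitiveRoot.orderOf (Ψ y)
    rwa [orderOf_eq_prime (p := p) (by
      rw [← Ψ.map_nsmul_eq_pow, h0 _ (Ideal.Quotient.eq_zero_iff_mem.1 (by
        rw [map_nsmul, nsmul_eq_mul, CharP.cast_eq_zero, zero_mul]))]) hy] at this

variable {κ : Type} [Field κ] {π : 𝓞 (AlgebraicClosure L) →+* κ} {Φ : κ → E}
  (hπ : ∀ x, π x = 0 ↔ x ∈ 𝔓)

include hπ

omit [NumberField L] in
theorem nmem {p q : ℕ} [Fact p.Prime] [CharP κ p] (A : AC p q Φ) (h2 : 2 ∉ 𝔓) {D : ℕ} (hD : 0 < D) :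
    ((2 * (q ^ D - 1) : ℕ) : 𝓞 (AlgebraicClosure L)) ∉ 𝔓 := by
  obtain ⟨f, hf⟩ := A.pw
  have f0 : f ≠ 0 := fun e => A.one.ne' (by rw [hf, e, pow_zero])
  rw [← hπ, map_natCast, Nat.cast_mul, Nat.cast_pred (pow_pos A.odd.pos D), hf]
  simpa [f0, hD.ne'] using fun e : (2 : κ) = 0 => h2 ((hπ 2).1 ((map_ofNat π 2).trans e))

variable (h : 𝔓.IsMaximal) (hΦ : ∀ y, Φ (π (algebraMap _ _ y)) = Ψ y) {N : ℕ}
  (hN : ((2 * N : ℕ) : 𝓞 (AlgebraicClosure L)) ∉ 𝔓) {ϖ : L} {β : AlgebraicClosure L} (β0 : β ≠ 0)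
  (hβ : β ^ (2 * N) = algebraMap L _ ϖ ^ 2) {t : Gal L} (ht : t ∈ Ine 𝔓)
  {η : 𝓞 (AlgebraicClosure L)} (hη : IsPrimitiveRoot η N) (e : t β = η * β)

include h hN hη

omit [NumberField L] in
theorem prim {M : ℕ} (hM : M ∣ N) : IsPrimitiveRoot (π η ^ (N / M)) M := by
  have N0 : 0 < N := Nat.pos_of_ne_zero fun a => hN (by simp [a])
  refine IsPrimitiveRoot.pow N0 ⟨by rw [← map_pow, hη.pow_eq_one, map_one], fun l hl =>
    hη.dvd_of_pow_eq_one l (eq_of_pow h.isPrime (m := 2 * N) ?_ (one_pow _) hN ?_)⟩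
    (Nat.div_mul_cancel hM).symm
  · rw [pow_right_comm, pow_mul', hη.pow_eq_one, one_pow, one_pow]
  · rw [← hπ, map_sub, map_pow, hl, map_one, sub_self]

include β0 hβ

omit [NumberField L] hπ hη in
theorem cmp {M : ℕ} (hM : M ∣ N) {α : AlgebraicClosure L} (hα : α ^ (2 * M) = algebraMap L _ ϖ ^ 2)
    {g : Gal L} (hg : g ∈ Ine 𝔓) {c : AlgebraicClosure L} (hc : g β = c * β) :
    g α = c ^ (N / M) * α :=
  ine_root h hg (N := 2 * M) (fun a => hN (𝔓.mem_of_dvd (Nat.cast_dvd_cast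
    (Nat.mul_dvd_mul_left 2 hM)) a)) (β := β ^ (N / M))
    (by rw [hα, ← hβ, ← pow_mul, mul_left_comm, Nat.div_mul_cancel hM]) (pow_ne_zero _ β0)
    (by rw [map_pow, hc, mul_pow])

include hΦ ht e

theorem nfB {d : ℕ} {z : Gal L → E} {G : E} (B : Blk 𝔓 ϖ Ψ d z G) (hd : nq 𝔓 ^ d - 1 ∣ N) :
    Per (nq 𝔓) d (z t) ∧ G = gs (nq 𝔓) Φ (π η ^ (N / (nq 𝔓 ^ d - 1))) d (z t) ∧
      ∀ g ∈ Ine 𝔓, ∀ k, g β = η ^ k * β → z g = z t ^ k := by
  obtain ⟨α, χ, y, d0, a1, a2, a3, a4, rfl⟩ := B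
  have N0 : 0 < N := Nat.pos_of_ne_zero fun a => hN (by simp [a])
  have M0 := Nat.pos_of_dvd_of_pos hd N0
  have := NeZero.mk M0.ne'
  have p := hη.pow N0 (Nat.div_mul_cancel hd).symm
  let x := rootsOfUnity.mkOfPowEq _ p.pow_eq_one
  have key : ∀ g ∈ Ine 𝔓, ∀ k, g β = η ^ k * β → z g = χ x ^ k := fun g hg k hk => by
    rw [← map_pow]
    refine a2 g hg _ ((cmp h hN β0 hβ hd (by rw [pow_mul', a1]) hg hk).trans ?_)
    rw [pow_right_comm]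
    rfl
  have zt : z t = χ x := by simpa using key t ht 1 (by simpa using e)
  have gen : ∀ y : rootsOfUnity _ _, ∃ j < nq 𝔓 ^ d - 1, x ^ j = y := fun y =>
    (p.eq_pow_of_pow_eq_one ((mem_rootsOfUnity' _ _).1 y.2)).imp fun j hj =>
      ⟨hj.1, Subtype.ext (Units.ext hj.2)⟩
  rw [zt]
  refine ⟨⟨fun a => by simp [a, d0.ne'] at M0, d0, by
    rw [← map_pow, show x ^ _ = 1 from Subtype.ext x.2, map_one], fun j j0 j1 a =>
      a3 j j0 j1 (MonoidHom.ext fun y => ?_)⟩, ?_, key⟩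
  · obtain ⟨i, -, rfl⟩ := gen y
    rw [MonoidHom.pow_apply, map_pow, pow_right_comm, a]
  · let _ := Fintype.ofFinite (rootsOfUnity (nq 𝔓 ^ d - 1) (𝓞 (AlgebraicClosure L)))
    rw [finsum_eq_sum_of_fintype]
    refine (sum_bij (fun j _ => x ^ j) (fun _ _ => mem_univ _) (fun i hi j hj a =>
      p.pow_inj (mem_range.1 hi) (mem_range.1 hj) (congrArg (fun y => y.1.1) a))
      (fun y _ => (gen y).imp fun j hj => ⟨mem_range.2 hj.1, hj.2⟩) fun j _ => ?_).symm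
    have := (hπ _).2 (a4 (x ^ j))
    rw [map_sub, sub_eq_zero] at this
    rw [map_inv, map_pow, inv_pow, ← hΦ, this, tr, map_sum]
    simp only [← map_pow]
    rfl

theorem nfE {ι : Type} [Fintype ι] {d : ι → ℕ} {z : ι → Gal L → E} {G : ι → E}
    (B : ∀ i, Blk 𝔓 ϖ Ψ (d i) (z i) (G i)) (hd : ∀ i, nq 𝔓 ^ d i - 1 ∣ N) :
    (∀ i, Per (nq 𝔓) (d i) (z i t)) ∧
      ∏ i, -G i = ∏ i, -gs (nq 𝔓) Φ (π η ^ (N / (nq 𝔓 ^ d i - 1))) (d i) (z i t) ∧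
      ∀ g ∈ Ine 𝔓, ∀ k, g β = η ^ k * β →
        ∏ i, ∏ j ∈ range (d i), (X - C (z i g ^ nq 𝔓 ^ j)) =
        (((∑ i, orb (nq 𝔓) (d i) (z i t)).map (· ^ k)).map fun y => X - C y).prod := by
  have := fun i => nfB hπ h hΦ hN β0 hβ ht hη e (B i) (hd i)
  refine ⟨fun i => (this i).1, prod_congr rfl fun i _ => by rw [← (this i).2.1], fun g hg k hk => ?_⟩
  simp only [Multiset.map_map, msum, Multiset.prod_sum, orb_prod, Function.comp,
    fun i => (this i).2.2 g hg k hk, pow_right_comm _ k]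

omit hΦ ht e hπ hβ h [NumberField L] in
theorem ex_k {g : Gal L} (hg : g (β ^ N) = β ^ N) : ∃ k, g β = η ^ k * β := by
  have := NeZero.mk (n := N) fun a => hN (by simp [a])
  obtain ⟨k, -, hk⟩ := (hη.map_of_injective (f := algebraMap _ (AlgebraicClosure L))
    RingOfIntegers.coe_injective).eq_pow_of_pow_eq_one (ξ := g β / β)
    (by rw [div_pow, ← map_pow, hg, div_self (pow_ne_zero _ β0)])
  exact ⟨k, (div_eq_iff β0).1 hk.symm⟩

end Pool.Agent.EP
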