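import Pool.Agent.Lib.MP_b4b3cb_nt.Eps.Lin
import Pool.Agent.Lib.MP_b4b3cb_nt.Par.Ram

/-! The determinant of Frobenius on the quotient by the invariants of inertia. -/

namespace Pool.Agent.EP

open Module Polynomial Finset

variable {E V : Type} [NontriviallyNormedField E] [NormedAddCommGroup V] [NormedSpace E V]
  [FiniteDimensional E V] [CharZero E] (P : V →ₗ[E] V →ₗ[E] E)
  (hl : ∀ x, (∀ y, P x y = 0) → x = 0) (hr : ∀ y, (∀ x, P x y = 0) → y = 0)
  {S S' : Submodule E V} {T T' : End E V} (hS : ∀ x, x ∈ S ↔ T x = x)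

omit [CharZero E] in
theorem exD {F : End E V} (h : ∀ x ∈ S, F x = x) :
    ∃ f, QD S F f ∧ LinearMap.det F = LinearMap.det f := by
  obtain ⟨f, hf⟩ := exQD (S := S) (F := F) fun x hx => (h x hx).symm ▸ hx
  exact ⟨f, hf, by simpa using hf.det (c := 1) fun x hx => by rw [h x hx, one_smul]⟩

include hS

omit [CharZero E] [FiniteDimensional E V] in
theorem ae_fix (u : E[X]) (h : u.eval 1 = 1) (x : V) (hx : x ∈ S) : aeval T u x = x := by
  rw [End.aeval_apply_of_mem_apply_eq_smul (μ := 1) (by rw [(hS x).1 hx, one_smul]), h, one_smul]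

include hl hr

omit [CharZero E] in
theorem kers (hS' : ∀ x, x ∈ S' ↔ T' x = x) (p : ∀ x y, P (T' x) (T y) = P x y) :
    (∀ x, x ∈ S' ↔ ∀ y, P.compl₂ (T - 1) x y = 0) ∧ ∀ y, y ∈ S ↔ ∀ x, P.compl₂ (T - 1) x y = 0 := by
  have sur : Function.Surjective T := LinearMap.injective_iff_surjective.1
    ((injective_iff_map_eq_zero _).2 fun y hy => hr y fun x => by rw [← p, hy, map_zero])
  simp only [LinearMap.compl₂_apply, LinearMap.sub_apply, End.one_apply]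
  refine ⟨fun x => (hS' x).trans ⟨fun h y => by rw [map_sub, ← p x y, h, sub_self], fun h =>
    sub_eq_zero.1 (hl _ fun y => ?_)⟩, fun y => (hS y).trans
      ⟨fun h x => by rw [h, sub_self, map_zero], fun h => sub_eq_zero.1 (hr _ h)⟩⟩
  obtain ⟨y, rfl⟩ := sur y
  rw [map_sub, LinearMap.sub_apply, p, ← neg_sub, ← map_sub, h, neg_zero]

theorem linS (hS' : ∀ x, x ∈ S' ↔ T' x = x) (p : ∀ x y, P (T' x) (T y) = P x y) {q : ℕ} (q0 : q ≠ 0)
    {σ τ σ' τ' γ : End E V} (p' : ∀ x y, P (σ' x) (σ y) = q * P x y) (r : σ * T = T ^ q * σ)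
    (i : σ * τ = 1) (i' : σ' * γ * τ' = 1) (hγ : ∀ x ∈ S', γ x = x) {f f'} (hf : QD S (-τ) f)
    (hf' : QD S' (-τ') f') : LinearMap.det γ * LinearMap.det f' * LinearMap.det f =
      LinearMap.det (aeval T (C (q : E)⁻¹ * ∑ i ∈ range q, X ^ i)) := by
  have q1 : (q : E) ≠ 0 := Nat.cast_ne_zero.2 q0
  obtain ⟨k1, k2⟩ := kers P hl hr hS hS' p
  obtain ⟨g, g1, g2⟩ := exD hγ
  obtain ⟨a, a1, a2⟩ := exD (ae_fix hS (C (q : E)⁻¹ * ∑ i ∈ range q, X ^ i) (by simp [q1]))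
  rw [g2, a2, ← map_mul, qpdet _ k1 k2 (g1.mul hf') hf QD.one a1 fun x y => ?_, map_one, one_mul]
  have e : σ * (T - 1) * τ = q • ((T - 1) * aeval T (C (q : E)⁻¹ * ∑ i ∈ range q, X ^ i)) := by
    rw [mul_sub, r, mul_one, ← sub_one_mul, mul_assoc, i, mul_one, ← mul_geom_sum]
    simp [← Nat.cast_smul_eq_nsmul E, Algebra.algebraMap_eq_smul_one, smul_smul, q1]
  have := p' (γ (τ' x)) ((T - 1) (τ y))
  rw [show σ' (γ (τ' x)) = x from LinearMap.congr_fun i' x,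
    show σ ((T - 1) (τ y)) = _ from LinearMap.congr_fun e y, LinearMap.smul_apply, map_nsmul,
    nsmul_eq_mul, mul_right_inj' q1] at this
  simpa only [End.mul_apply, LinearMap.neg_apply, map_neg, neg_neg, LinearMap.compl₂_apply,
    End.one_apply] using this.symm

theorem linI {a : ℕ} (a0 : a ≠ 0) (hS' : ∀ x, x ∈ S ↔ (T ^ a) x = x)
    (p : ∀ x y, P ((T ^ a) x) (T y) = P x y) {F τ γ : End E V}
    (p' : ∀ x y, P (F y) x = -(a * P x y)) (r : F * T = (T ^ a) ^ a * F) (i : F * γ * τ = 1)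
    (hγ : ∀ x ∈ S, γ x = x) {f} (hf : QD S (-τ) f) :
    (-1) ^ finrank E (V ⧸ S) * (LinearMap.det γ * LinearMap.det f) =
      LinearMap.det (aeval T (C (a : E)⁻¹ * (X ^ a * ∑ i ∈ range a, (X ^ a) ^ i))) := by
  have a1 : (a : E) ≠ 0 := Nat.cast_ne_zero.2 a0
  obtain ⟨k1, k2⟩ := kers P hl hr hS hS' p
  obtain ⟨g, g1, g2⟩ := exD hγ
  obtain ⟨b, b1, b2⟩ := exD (ae_fix hS (C (a : E)⁻¹ * (X ^ a * ∑ i ∈ range a, (X ^ a) ^ i))
    (by simp [a1, eval_finsetSum]))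
  rw [g2, b2, ← map_mul, ← LinearMap.det_smul,
    qsdet _ k1 k2 b1 ((g1.mul hf).smul (-1)) fun x y => ?_]
  have e : F * (T - 1) * (γ * τ) = (T ^ a - 1) * ∑ i ∈ range a, (T ^ a) ^ i := by
    rw [mul_sub, r, mul_one, ← sub_one_mul, mul_assoc, ← mul_assoc F, i, mul_one, mul_geom_sum]
  have := p' x ((T - 1) (γ (τ y)))
  rw [show F ((T - 1) (γ (τ y))) = _ from LinearMap.congr_fun e y] at this
  have h := p ((∑ i ∈ range a, (T ^ a) ^ i) y) x
  simp only [map_mul, map_pow, aeval_X, aeval_C, map_sum (aeval T), End.mul_apply,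
    algebraMap_end_apply, LinearMap.compl₂_apply, LinearMap.sub_apply, End.one_apply, map_sub,
    map_smul, LinearMap.smul_apply, smul_eq_mul, LinearMap.neg_apply, map_neg] at this ⊢
  rw [h]
  field_simp
  linear_combination -this

omit hr in
theorem linR {σ τ : End E V} {r : ℕ} {u : E[X]} (tt : T' * T = 1) (tt' : T * T' = 1)
    (p2 : ∀ x y, P (T y) x = -P x y)
    (p3 : ∀ x y, P (σ x) ((T ^ r) (σ y)) = (2 * r + 1 : ℕ) * P x y)
    (p4 : σ * T = T ^ (2 * r + 1) * σ) (u1 : u.eval 1 = 1)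
    (hid : (2 * r + 1) • (aeval T u * aeval T' u * T ^ r) = ∑ i ∈ range (2 * r + 1), T ^ i)
    (i : σ * τ = 1) (hσ : ∀ x ∈ S, σ x ∈ S) (h0 : ∀ x ∈ S, σ x = x → x = 0) {f} (hf : QD S (-τ) f) :
    LinearMap.det f = (-1) ^ finrank E (LinearMap.ker (aeval T u * σ - 1)) *
      LinearMap.det (aeval T u) := by
  have p1 : ∀ x y, P x (T y) = P (T' x) y := fun x y => by
    have := p2 (T y) (T' x)
    rwa [← End.mul_apply, tt', End.one_apply, p2, neg_neg] at this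
  have sy : ∀ x y, (P ∘ₗ (T - 1)) x y = -P y x - P x y := fun x y => by
    rw [LinearMap.comp_apply, LinearMap.sub_apply, map_sub, LinearMap.sub_apply, p2, End.one_apply]
  have sy' : ∀ x y, (P ∘ₗ (T - 1)) x y = (P ∘ₗ (T - 1)) y x := fun x y => by rw [sy, sy]; ring
  have k : ∀ x, x ∈ S ↔ ∀ y, (P ∘ₗ (T - 1)) x y = 0 := fun x => (hS x).trans ⟨fun h y => by
    simp [h], fun h => sub_eq_zero.1 (hl _ h)⟩
  obtain ⟨β, b1, b2, -⟩ := exQ _ k fun y => (k y).trans (forall_congr' fun x => by rw [sy'])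
  obtain ⟨a, a1, a2⟩ := exD (ae_fix hS u u1)
  obtain ⟨s, s1⟩ := exQD hσ
  have o := orth β (fun x y => by
    obtain ⟨x, rfl⟩ := S.mkQ_surjective x
    obtain ⟨y, rfl⟩ := S.mkQ_surjective y
    rw [b1, b1, sy']) b2 (M := a * s) fun x y => by
      obtain ⟨x, rfl⟩ := S.mkQ_surjective x
      obtain ⟨y, rfl⟩ := S.mkQ_surjective y
      rw [a1.mul s1, a1.mul s1, b1, b1]
      exact SP.iso_tw P tt tt' p1 p3 p4 hid x y
  rw [(a1.mul s1).ker fun x hx e => h0 x hx (by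
    rwa [End.mul_apply, ae_fix hS u u1 _ (hσ x hx)] at e)] at o
  rw [a2, a1.uniq (g := -(a * s) * f) (by
    simpa [mul_assoc, i] using (a1.mul s1).neg.mul hf), map_mul, o, ← mul_assoc, ← mul_pow]
  simp

end Pool.Agent.EP
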