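import Pool.Agent.Lib.MP_b4b3cb_nt.Eps.Nf
import Pool.Agent.Lib.MP_b4b3cb_nt.Eps.Cas
import Pool.Agent.Lib.MP_b4b3cb_nt.Par.Brg

/-! Generators of tame inertia in a unipotent representation. -/

set_option linter.unusedSectionVars false

namespace Pool.Agent.EP

open scoped Classical Pointwise
open NumberField Pool.Agent.Stark Pool.Agent.SP Polynomial Finset Module Matrix
open SC hiding Hm Rp V T Two Cob Sel Spl cup dq Cz Sz res gs cyc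
open SelTwo hiding Ine Dec Cob

theorem qd_ex {E : Type} [NontriviallyNormedField E] {n : ℕ} {U : Submodule E (Fin n → E)}
    {M : Matrix (Fin n) (Fin n) E} {a : E} (h : Qd U M a) : ∃ f : End E ((Fin n → E) ⧸ U),
    (∀ x, f (Submodule.Quotient.mk x) = Submodule.Quotient.mk (M *ᵥ x)) ∧ a = LinearMap.det f := by
  obtain ⟨k, P, A, h1, h2, h3, rfl⟩ := h
  obtain rfl : U = LinearMap.ker P.mulVecLin := Submodule.ext fun x => (h2 x).symm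
  let e := P.mulVecLin.quotKerEquivOfSurjective h1
  have he : ∀ x, e (Submodule.Quotient.mk x) = P *ᵥ x := fun x => rfl
  refine ⟨(e.symm : _ →ₗ[E] _) ∘ₗ Matrix.toLin' A ∘ₗ (e.symm.symm : _ →ₗ[E] _), fun x => ?_, ?_⟩
  · apply e.injective
    simp [he, Matrix.mulVec_mulVec, h3]
  · rw [LinearMap.det_conj, LinearMap.det_toLin']

variable {E k : Type} [NontriviallyNormedField E] [IsUltrametricDist E] [NormedAlgebra ℚ_[2] E]
  [Field k] [Finite k] [CharP k 2] [Algebra (ZMod 2) k] {c : CF E k} [CompleteSpace E] [CharZero E]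

section

variable {K Ω : Type} [Field K] [NumberField K] [Field Ω] [Algebra K Ω] [IsAlgClosed Ω]
  [IsGalois K Ω] [CharZero Ω] {𝔓 : Ideal (𝓞 Ω)} (h : 𝔓.IsMaximal) (h2 : 2 ∉ 𝔓) {τ : Gal(Ω/K)}
  (t1 : τ ∈ Ine K 𝔓) {r : Ω} (r0 : r ≠ 0) (r1 : Fix (Ine K 𝔓) (r ^ 2)) (r2 : τ r = -r)
  {W : Type} [NormedAddCommGroup W] [NormedSpace E W] [FiniteDimensional E W] {N : ℕ} {C : Ch c W N}
  {R : Rp E Gal(Ω/K) W} (hS : C.Stab R)

include h h2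

theorem cyc_q {φ : Gal(Ω/K)} {n : ℕ} (hφ : IsFr 𝔓 n φ) : cycE E K Ω φ = n := by
  rw [cycE_apply, (facts K Ω).fr.cyc_fr h h2 hφ]
  simp

include t1 r0 r1 r2

theorem genK : Gen k ∅ (⟨τ, t1⟩ : Ine K 𝔓) := by
  obtain ⟨τ₀, g⟩ := genI (K := K) (k := k) h h2
  have := hom_iff.2 ((facts K Ω).kum.hom r0 r1)
  exact gen_of g (φ := fun g => algebraMap (ZMod 2) k (kr r g.1)) ⟨this.1.comp _, fun g l => by
    rw [← map_add]; exact congrArg _ (this.2 g l)⟩ ((_root_.map_ne_zero _).2 (kr_zero.not.2 fun e =>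
      r0 (by linear_combination (1 / 2 : Ω) * (r2.symm.trans e).symm)))

include hS

theorem relK {φ : Gal(Ω/K)} {n : ℕ} (n0 : n ≠ 0) (hφ : IsFr 𝔓 n φ) :
    R.ac φ * R.ac τ = R.ac τ ^ n * R.ac φ := by
  have s := (facts K Ω).fr.dec h n0 hφ
  have n1 : φ * τ * φ⁻¹ ∈ Ine K 𝔓 := by simpa using ine_nor (inv_mem s) t1
  have rl := rel (g' := ⟨_, n1⟩) (q := n) (genK (k := k) h h2 t1 r0 r1 r2)
    (fun f f1 f2 => cyc_q (E := E) h h2 hφ ▸ tame c h h2 s f f1 f2 _ _ rfl) (hS.res (Ine K 𝔓))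
  change R.ac (φ * τ * φ⁻¹) = R.ac τ ^ _ at rl
  rw [← rl, ← map_mul, ← map_mul, inv_mul_cancel_right]

theorem fixK {x : W} (hx : R.ac τ x = x) (g : Gal(Ω/K)) (hg : g ∈ Ine K 𝔓) : R.ac g x = x :=
  sub_eq_zero.1 (C.sep fun j => (hS.res (Ine K 𝔓)).gen {⟨τ, t1⟩} (fun f hf a =>
    genK h h2 t1 r0 r1 r2 f hf (by simp) (a _ rfl)) ((R.res _).d1_mem x)
    (by rintro _ rfl; exact (sub_eq_zero.2 hx).symm.subst (zero_mem _)) ⟨g, hg⟩)

omit t1 r0 r1 r2 in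
theorem fixD {v : Pr K} (hv : Over 𝔓 v) {σ : Gal(Ω/K)} (hσ : IsFr 𝔓 (Ideal.absNorm v.asIdeal) σ)
    {x : W} (hx : R.ac σ x = x) (hI : ∀ g ∈ Ine K 𝔓, R.ac g x = x) (g : Dec K 𝔓) : R.ac g x = x := by
  have s := (facts K Ω).fr.dec h (Ideal.absNorm_eq_zero_iff.not.2 v.ne_bot) hσ
  refine sub_eq_zero.1 (C.sep fun j => (hS.res (Dec K 𝔓)).gen
    (insert ⟨σ, s⟩ ((Ine K 𝔓).subgroupOf (Dec K 𝔓) : Set (Dec K 𝔓))) (fun f hf a =>
    genD hv h2 ⟨σ, s⟩ hσ f hf (fun g hg => a g (.inr hg)) (a _ (.inl rfl))) ((R.res _).d1_mem x) ?_ g)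
  rintro g (rfl | hg)
  exacts [(sub_eq_zero.2 hx).symm.subst (zero_mem _),
    (sub_eq_zero.2 (hI g hg)).symm.subst (zero_mem _)]

end

section

variable {Γ G : Type} [Group Γ] [TopologicalSpace Γ] [Group G] [TopologicalSpace G] {J : IG Γ G}
  {χ : G →* E} {V : Type} [NormedAddCommGroup V] [NormedSpace E V] {m : ℕ} (U : VD J c χ V m)
  {a : G} (ha : a ∉ J.H)

/-- The pairing attached to an element outside the subgroup. -/
noncomputable def pr (a : G) : V →ₗ[E] V →ₗ[E] E := U.B.compl₂ (U.ρ.ac (J.cj (J.u a)))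

theorem pr_l (hB : ∀ x, (∀ y, U.B x y = 0) → x = 0) (x : V) (hx : ∀ y, pr U a x y = 0) : x = 0 :=
  hB x fun y => by simpa [pr, ← U.ρ.mul, U.ρ.one] using hx (U.ρ.ac (J.cj (J.u a))⁻¹ y)

theorem pr_r (hB : ∀ x, (∀ y, U.B x y = 0) → x = 0) (y : V) (hy : ∀ x, pr U a x y = 0) : y = 0 := by
  have := congrArg (U.ρ.ac (J.cj (J.u a))⁻¹) (hB _ fun x => (U.sy _ _).trans (hy x))
  rwa [← U.ρ.mul, inv_mul_cancel, U.ρ.one, map_zero] at this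

include ha

theorem ι_u (γ : Γ) : J.ι (J.u (a * J.ι γ * a⁻¹)) = a * J.ι γ * a⁻¹ :=
  J.u1 _ (J.two _ _ (by rw [mul_mem_cancel_right (J.mem γ)]; exact ha) (by rwa [inv_mem_iff]))

theorem pr1 (γ : Γ) (x y : V) :
    pr U a (U.ρ.ac (J.u (a * J.ι γ * a⁻¹)) x) (U.ρ.ac γ y) = χ (J.ι γ) * pr U a x y := by
  have e : J.cj (J.u (a * J.ι γ * a⁻¹)) * J.cj (J.u a) = J.cj (J.u a) * γ := J.inj (by
    rw [map_mul, map_mul, J.hcj, J.hcj, ι_u ha, J.u2 a ha]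
    simp only [mul_assoc, J.s_s, J.ss, mul_one, inv_mul_cancel])
  have := U.equi (J.u (a * J.ι γ * a⁻¹)) x (U.ρ.ac (J.cj (J.u a)) y)
  rwa [← U.ρ.mul, e, U.ρ.mul, ι_u ha, map_mul χ, map_mul χ, mul_right_comm (χ a), ← map_mul χ,
    mul_inv_cancel, map_one, one_mul] at this

theorem pr2 (x y : V) : pr U a (U.ρ.ac (J.u (a * a)) y) x = -(χ a * pr U a x y) := by
  rw [J.u_out ha, U.ρ.mul]
  exact (U.equi _ _ _).trans (by rw [U.chi_out ha, U.sy, neg_mul]; rfl)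

theorem pr3 {σ : Γ} {r : ℕ}
    (rel : U.R.ac (J.ι σ) * U.R.ac a = U.R.ac a ^ (2 * r + 1) * U.R.ac (J.ι σ)) (x y : V) :
    pr U a (U.ρ.ac σ x) ((U.ρ.ac (J.u (a * a)) ^ r) (U.ρ.ac σ y)) = χ (J.ι σ) * pr U a x y := by
  have ab : ∀ x, U.ρ.ac (J.u a) (U.ρ.ac (J.cj (J.u a)) x) = U.ρ.ac (J.u (a * a)) x := fun x => by
    rw [J.u_out ha, U.ρ.mul]
  have pw : ∀ (j : ℕ) x y, (U.R.ac a ^ (2 * j + 1)) (x, y) =
      ((U.ρ.ac (J.u (a * a)) ^ j) (U.ρ.ac (J.u a) y),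
        U.ρ.ac (J.cj (J.u a)) ((U.ρ.ac (J.u (a * a)) ^ j) x)) := fun j x y => by
    induction j with
    | zero => simpa using U.R_out ha (x, y)
    | succ j ih =>
      rw [show 2 * (j + 1) + 1 = 2 * j + 1 + 1 + 1 by ring, pow_succ', pow_succ', End.mul_apply,
        End.mul_apply, ih, U.R_out ha, U.R_out ha, ab, ab, pow_succ', End.mul_apply, End.mul_apply]
  have := LinearMap.congr_fun rel (y, 0)
  rw [End.mul_apply, End.mul_apply, U.R_out ha, U.R_in (J.mem _), U.R_in (J.mem _), J.u_ι,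
    pw] at this
  exact (congrArg _ (congrArg Prod.snd this).symm).trans (U.equi _ _ _)

end

variable {L : Type} [Field L] [NumberField L] {n : ℕ} {ρ : Gal L →* Matrix (Fin n) (Fin n) E}
  {R : Rp E (Gal L) (Fin n → E)} (ea : ∀ g, R.ac g = toLinAlgEquiv' (ρ g)) {𝔓 : Idl L}

include ea

theorem mem_inv {D : Subgroup (Gal L)} {x : Fin n → E} : x ∈ Fx ρ D ↔ ∀ g ∈ D, R.ac g x = x := by
  simp [Fx, ea, sub_eq_zero, toLinAlgEquiv'_apply]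

theorem core {M : ℕ} {Λ : Ch c (Fin n → E) M} (hS : Λ.Stab R) (h : 𝔓.IsMaximal) (h2 : 2 ∉ 𝔓)
    {ϖ : L} {Ψ : AddChar (𝓞 L) E} {e : E} (he : Eps ρ 𝔓 ϖ Ψ e) :
    ∃ D > 0, ∃ (σ : Gal L) (α : AlgebraicClosure L) (f : End E _), IsFr 𝔓 (nq 𝔓) σ ∧
      α ^ (nq 𝔓 - 1) = -algebraMap L _ ϖ ∧ σ α = α ∧ QD (Fx ρ (Ine L 𝔓)) (-R.ac σ⁻¹) f ∧
      ∀ {κ : Type} [Field κ] {π : 𝓞 (AlgebraicClosure L) →+* κ} {Φ : κ → E} {N : ℕ}
        {β : AlgebraicClosure L} {t : Gal L} {η : 𝓞 (AlgebraicClosure L)},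
        (∀ x, π x = 0 ↔ x ∈ 𝔓) → (∀ y, Φ (π (algebraMap _ _ y)) = Ψ y) →
        ((2 * N : ℕ) : 𝓞 (AlgebraicClosure L)) ∉ 𝔓 → Even N → nq 𝔓 ^ D - 1 ∣ N → β ≠ 0 →
        (β ^ N) ^ 2 = algebraMap L _ ϖ ^ 2 → t ∈ Ine L 𝔓 → IsPrimitiveRoot η N → t β = η * β →
        ∃ (m : ℕ) (d : Fin m → ℕ) (ζ : Fin m → E), (∀ i, Per (nq 𝔓) (d i) (ζ i)) ∧
          (∀ i, IsPrimitiveRoot (π η ^ (N / (nq 𝔓 ^ d i - 1))) (nq 𝔓 ^ d i - 1)) ∧
          e = LinearMap.det f * ∏ i, -gs (nq 𝔓) Φ (π η ^ (N / (nq 𝔓 ^ d i - 1))) (d i) (ζ i) ∧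
          (∀ j, (∀ x, x ∈ Fx ρ (Ine L 𝔓) ↔ (R.ac t ^ (2 * j + 1)) x = x) ∧
            (R.ac t ^ j).charpoly =
              (((∑ i, orb (nq 𝔓) (d i) (ζ i)).map (· ^ j)).map fun y => X - C y).prod) ∧
          R.ac σ * R.ac t = R.ac t ^ nq 𝔓 * R.ac σ ∧
          ∀ g ∈ Ine L 𝔓, ∃ j, LinearMap.det (R.ac g) =
            ((∑ i, orb (nq 𝔓) (d i) (ζ i)).map (· ^ j)).prod ∧ ∀ a : AlgebraicClosure L,
            a ^ (2 * (nq 𝔓 - 1)) = algebraMap L _ ϖ ^ 2 →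
              g a = (η ^ (N / (nq 𝔓 - 1))) ^ j * a := by
  obtain ⟨m, d, z, G, σ, α, _, B, a1, a2, a3, a4, a6, rfl⟩ := he
  obtain ⟨f, a5, rfl⟩ := qd_ex a6
  replace a5 : ∀ x, f (Submodule.Quotient.mk x) = Submodule.Quotient.mk (-(ρ σ⁻¹ *ᵥ x)) :=
    fun x => by rw [a5, Matrix.neg_mulVec]
  have d0 : ∀ i, 0 < d i := fun i => (B i).choose_spec.choose_spec.choose_spec.1
  refine ⟨∏ i, d i, prod_pos fun i _ => d0 i, σ, α, f, a2, a3, a4, fun x => (a5 x).trans (by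
    rw [ea]; rfl), fun {κ _ π Φ N β t η} hπ hΦ hN ev dv β0 hβ ht hη e => ?_⟩
  have hd : ∀ i, nq 𝔓 ^ d i - 1 ∣ N := fun i =>
    (Nat.pow_sub_one_dvd_pow_sub_one _ (dvd_prod_of_mem d (mem_univ i))).trans dv
  have d1 : nq 𝔓 - 1 ∣ N := (Nat.sub_one_dvd_pow_sub_one _ _).trans dv
  have N0 : 0 < N := Nat.pos_of_ne_zero fun a => hN (by simp [a])
  have fx : ∀ g : Gal L, g (β ^ N) = β ^ N := fun g => by
    rcases sq_eq_sq_iff_eq_or_eq_neg.1 hβ with a | a <;> simp [a]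
  rw [← pow_mul, mul_comm] at hβ
  obtain ⟨n1, n2, n3⟩ := nfE hπ h hΦ hN β0 hβ ht hη e B hd
  have pη := hη.map_of_injective (f := algebraMap _ (AlgebraicClosure L))
    RingOfIntegers.coe_injective
  have pw : ∀ j, (t ^ j) β = η ^ j * β := fun j => by
    induction j with
    | zero => simp
    | succ j ih =>
      rw [pow_succ', AlgEquiv.mul_apply, ih, map_mul, e, fr_root h (ine_fr ht) hN (by
        rw [pow_right_comm, pow_mul', pη.pow_eq_one, one_pow, one_pow]), pow_one, pow_succ,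
        mul_assoc]
  have r0 := pow_ne_zero (N / 2) β0
  have r1 : Fix (Ine L 𝔓) ((β ^ (N / 2)) ^ 2) := fun g _ => by
    rw [← pow_mul, Nat.div_mul_cancel ev.two_dvd, fx]
  have r2 : ∀ j, (t ^ (2 * j + 1)) (β ^ (N / 2)) = -β ^ (N / 2) := fun j => by
    rw [map_pow, pw, mul_pow, pow_right_comm, show (η : AlgebraicClosure L) ^ (N / 2) = -1 from
      half pη N0 ev, (odd_two_mul_add_one j).neg_one_pow, neg_one_mul]
  have ch : ∀ g ∈ Ine L 𝔓, ∀ j, g β = η ^ j * β → (R.ac g).charpoly = _ := fun g hg j hj =>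
    (by rw [ea]; exact charpoly_toLin' _ : (R.ac g).charpoly = (ρ g).charpoly).trans
      ((a1 g hg).trans (n3 g hg j hj))
  refine ⟨m, d, _, n1, fun i => prim hπ h hN hη (hd i), congrArg _ n2, fun j => ⟨fun x => ?_, ?_⟩,
    relK h h2 ht r0 r1 (by simpa using r2 0) hS (fun a => ?_) a2, fun g hg => ?_⟩
  · rw [mem_inv ea, ← map_pow]
    exact ⟨fun a => a _ (pow_mem ht _), fixK h h2 (pow_mem ht _) r0 r1 (r2 j) hS⟩
  · rw [← map_pow]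
    exact ch _ (pow_mem ht _) j (pw j)
  · exact h.ne_top ((Ideal.eq_top_iff_one _).2 (by simpa [a] using neg_mem (a2 0)))
  · obtain ⟨j, hj⟩ := ex_k hN β0 hη (fx g)
    refine ⟨j, by simpa using det_aeval (ch g hg j hj) X, fun a ha => ?_⟩
    rw [cmp h hN β0 hβ d1 ha hg hj, pow_right_comm]

end Pool.Agent.EP
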