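import Mathlib

/-! A square root of the geometric sum. -/

namespace Pool.Agent.EP

open Finset Polynomial

variable {O : Type} [CommRing O]

/-- The defining property of the square root. -/
def TU (q : ℕ) (u : O[X]) : Prop := u.eval 1 = 1 ∧
  ∀ (R : Type) [CommRing R] [Algebra O R] (y y' : R), y * y' = 1 →
    q * (aeval y u * aeval y' u * y ^ (q / 2)) = ∑ i ∈ range q, y ^ i

theorem TU.x {q : ℕ} {u : O[X]} (h : TU q u) : TU q (X * u) :=
  ⟨by simp [h.1], fun R _ _ y y' e => by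
    rw [← h.2 R y y' e, map_mul, map_mul, aeval_X, aeval_X, mul_mul_mul_comm, e, one_mul]⟩

theorem TU.mul {a b : ℕ} {u v : O[X]} (h : TU a u) (h' : TU b v) (ha : Odd a) (hb : Odd b) :
    TU (a * b) (u * expand O a v) := by
  refine ⟨by simp [h.1, h'.1], fun R _ _ y y' e => ?_⟩
  have g : ∑ i ∈ range (a * b), y ^ i = (∑ i ∈ range a, y ^ i) * ∑ i ∈ range b, (y ^ a) ^ i := by
    clear h' hb
    induction b with
    | zero => simp
    | succ b ih =>
      rw [mul_add_one, sum_range_add, ih, sum_range_succ, mul_add, sum_mul _ _ (_ ^ b)]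
      simp only [pow_add, pow_mul, mul_comm]
  obtain ⟨r, hr⟩ := ha
  obtain ⟨s, hs⟩ := hb
  rw [g, ← h.2 R y y' e, ← h'.2 R (y ^ a) (y' ^ a) (by rw [← mul_pow, e, one_pow]), map_mul,
    map_mul, expand_aeval, expand_aeval, show a * b / 2 = a / 2 + a * (b / 2) by
      rw [show b / 2 = s by omega, hs, mul_add, mul_left_comm]; omega, pow_add, pow_mul]
  push_cast
  ring

theorem exU1 [IsDomain O] {p : ℕ} (hp : Odd p) {ξ : O} (h : IsPrimitiveRoot ξ p)
    (hu : IsUnit (p : O)) : ∃ u : O[X], TU p u := by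
  obtain ⟨r, rfl⟩ := hp
  let η := fun j => ξ ^ (r + (r - 1 - j) + 1)
  have e : ∀ j ∈ range r, ξ ^ (j + 1) * η j = 1 := fun j hj => by
    rw [← pow_add, ← h.pow_eq_one]
    congr 1
    have := mem_range.1 hj
    omega
  have g : (∏ j ∈ range r, (X - C (ξ ^ (j + 1)))) * ∏ j ∈ range r, (X - C (η j)) =
      ∑ i ∈ range (2 * r + 1), X ^ i := by
    have := X_pow_sub_C_eq_prod h (Nat.succ_pos _) (one_pow _)
    rw [prod_range_succ', two_mul, prod_range_add, ← prod_range_reflect fun j => X - C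
      (ξ ^ (r + j + 1) * 1), ← two_mul, C_1, ← geom_sum_mul] at this
    simp only [mul_one, pow_zero, C_1] at this
    exact (mul_right_cancel₀ (X_sub_C_ne_zero 1) this).symm
  obtain ⟨c, hc⟩ := hu.exists_left_inv
  have g1 := congrArg (eval 1) g
  simp only [eval_mul, eval_prod, eval_sub, eval_X, eval_C, eval_geom_sum, one_geom_sum] at g1
  have g2 : ∀ (R : Type) [CommRing R] [Algebra O R] (y y' : R), y * y' = 1 →
      (∏ j ∈ range r, (y' - algebraMap O R (ξ ^ (j + 1)))) * y ^ r =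
        algebraMap O R (∏ j ∈ range r, -ξ ^ (j + 1)) * ∏ j ∈ range r, (y - algebraMap O R (η j)) := by
    intro R _ _ y y' hy
    rw [← card_range r, ← prod_const, card_range, map_prod, ← prod_mul_distrib, ← prod_mul_distrib]
    refine prod_congr rfl fun j hj => ?_
    have := congrArg (algebraMap O R) (e j hj)
    rw [map_mul, map_one] at this
    rw [map_neg]
    linear_combination hy - this
  have g3 := g2 O 1 1 (one_mul 1)
  simp only [Algebra.algebraMap_self, RingHom.id_apply, one_pow, mul_one] at g3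
  refine ⟨C (c * ∏ j ∈ range r, (1 - η j)) * ∏ j ∈ range r, (X - C (ξ ^ (j + 1))), ?_,
    fun R _ _ y y' hy => ?_⟩
  · simp only [eval_mul, eval_prod, eval_sub, eval_X, eval_C]
    rw [mul_assoc, mul_comm (∏ j ∈ range r, (1 - η j)), g1, hc]
  have g4 := congrArg (aeval y) g
  have g5 : ((2 * r + 1 : ℕ) : O) * ((c * ∏ j ∈ range r, (1 - η j)) *
      (c * ∏ j ∈ range r, (1 - η j)) * ∏ j ∈ range r, -ξ ^ (j + 1)) = 1 := by
    rw [g3] at g1
    linear_combination (c * (c * (2 * r + 1 : ℕ))) * g1 + (c * (2 * r + 1 : ℕ) + 1) * hc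
  replace g5 := congrArg (algebraMap O R) g5
  simp only [map_mul _ (_ : O[X]), map_prod (aeval _), map_sub, aeval_X, aeval_C, map_sum,
    map_pow (aeval y)] at g4 ⊢
  rw [map_mul, map_mul, map_mul, map_natCast, map_one] at g5
  rw [← g4, show (2 * r + 1) / 2 = r by omega]
  simp only [mul_assoc]
  rw [g2 R y y' hy]
  linear_combination (∏ j ∈ range r, (y - algebraMap O R (ξ ^ (j + 1)))) *
    (∏ j ∈ range r, (y - algebraMap O R (η j))) * g5

theorem exU2 {p : ℕ} (hp : Odd p) {u : O[X]} (h : TU p u) (f : ℕ) : ∃ v : O[X], TU (p ^ f) v := by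
  induction f with
  | zero => exact ⟨1, by simp, fun R _ _ y y' _ => by simp⟩
  | succ f ih =>
    obtain ⟨v, hv⟩ := ih
    exact ⟨_, pow_succ p f ▸ hv.mul h hp.pow hp⟩

theorem exU {E : Type} [NontriviallyNormedField E] [IsUltrametricDist E] {p f : ℕ}
    (hp : Odd p) (h1 : ‖(p : E)‖ = 1) {ξ : E} (h : IsPrimitiveRoot ξ p) {c : E}
    (hc : c * c = (-1) ^ (p ^ f / 2) * (p ^ f : ℕ)) : ∃ u : E[X], (∀ i, ‖u.coeff i‖ ≤ 1) ∧
      u.eval 1 = 1 ∧ u.eval (-1) * c = 1 ∧
      (∀ y : E, y ≠ 0 → (p ^ f : ℕ) * (u.eval y * u.eval y⁻¹ * y ^ (p ^ f / 2)) =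
        ∑ i ∈ range (p ^ f), y ^ i) ∧
      ∀ {G R : Type} [Group G] [Ring R] [Algebra E R] (ρ : G →* R) (t : G),
        p ^ f • (aeval (ρ t) u * aeval (ρ t⁻¹) u * ρ t ^ (p ^ f / 2)) =
          ∑ i ∈ range (p ^ f), ρ t ^ i := by
  let O := (NormedField.valuation (K := E)).integer
  have m : ∀ x, x ∈ O ↔ ‖x‖ ≤ 1 := fun x => Iff.rfl
  have p0 : (p : E) ≠ 0 := norm_ne_zero_iff.1 (h1 ▸ one_ne_zero)
  obtain ⟨u, hu⟩ := exU1 (O := O) hp (ξ := ⟨ξ, (m _).2 (pow_eq_one_iff_of_nonneg (norm_nonneg _)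
    hp.pos.ne' |>.1 (by rw [← norm_pow, h.pow_eq_one, norm_one])).le⟩)
    (h.of_map_of_injective O.subtype_injective) (isUnit_iff_exists_inv.2
      ⟨⟨(p : E)⁻¹, (m _).2 (by simp [h1])⟩, Subtype.ext (mul_inv_cancel₀ p0)⟩)
  obtain ⟨v, hv⟩ := exU2 hp hu f
  have ev : ∀ (w : O[X]) (y : E), (w.map (algebraMap O E)).eval y = aeval y w := fun w y =>
    eval_map_algebraMap w y
  have : ∃ w : O[X], TU (p ^ f) w ∧ aeval (-1 : E) w * c = 1 := by
    have := hv.2 E (-1) (-1) (by simp)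
    rw [neg_one_geom_sum, if_neg (Nat.not_even_iff_odd.2 hp.pow)] at this
    rcases mul_self_eq_one_iff.1 (show (aeval (-1 : E) v * c) * (aeval (-1 : E) v * c) = 1 by
      rw [mul_mul_mul_comm, hc]; linear_combination this) with e | e
    exacts [⟨v, hv, e⟩, ⟨_, hv.x, by simp [e]⟩]
  obtain ⟨w, hw, e⟩ := this
  refine ⟨w.map (algebraMap O E), fun i => by rw [coeff_map]; exact (w.coeff i).2, by
    rw [eval_one_map, hw.1, map_one], by rw [ev, e], fun y hy => by
    rw [ev, ev, hw.2 E y _ (mul_inv_cancel₀ hy)], fun {G R} _ _ _ ρ t => ?_⟩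
  let φ := MonoidAlgebra.lift E R (Multiplicative ℤ) (ρ.comp (zpowersHom G t))
  have := congrArg φ (hw.2 (MonoidAlgebra E (Multiplicative ℤ))
    (MonoidAlgebra.of _ _ (.ofAdd 1)) (MonoidAlgebra.of _ _ (.ofAdd (-1)))
    (by rw [← map_mul, ← ofAdd_add, add_neg_cancel, ofAdd_zero, map_one]))
  simp only [← aeval_map_algebraMap E _ w, map_mul, map_sum, map_pow, ← aeval_algHom_apply,
    map_natCast, φ, MonoidAlgebra.lift_of] at this
  simpa using this

end Pool.Agent.EP
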