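import Pool.Agent.Lib.MP_b4b3cb_nt.Eps.Rep
import Pool.Agent.Lib.MP_b4b3cb_nt.Eps.Upo

/-! The local constants at split, inert and ramified primes. -/

set_option linter.unusedSectionVars false

namespace Pool.Agent.EP

open scoped Classical Pointwise
open NumberField Pool.Agent.Stark Pool.Agent.SP Polynomial Finset Module Matrix
open SC hiding Hm Rp V T Two Cob Sel Spl cup dq Cz Sz res gs cyc
open SelTwo hiding Ine Dec Cob

variable {E k : Type} [NontriviallyNormedField E] [IsUltrametricDist E] [NormedAlgebra ℚ_[2] E]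
  [Field k] [Finite k] [CharP k 2] [Algebra (ZMod 2) k] {c : CF E k} [CompleteSpace E] [CharZero E]
  {K L : Type} [Field K] [NumberField K] [Field L] [NumberField L] [Algebra K L]
  [IsGalois K (AlgebraicClosure L)] {J : IG (Gal L) Gal(AlgebraicClosure L/K)}
  (hι : ∀ g x, J.ι g x = g x) {d : K} (Q : Quad K L d) (hH : J.H = Gs K (AlgebraicClosure L) L)
  {n m : ℕ} (U : VD J c (cycE E K (AlgebraicClosure L)) (Fin n → E) m)
  {ρ : Gal L →* Matrix (Fin n) (Fin n) E} (ea : ∀ g, U.ρ.ac g = toLinAlgEquiv' (ρ g))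
  (hB : ∀ x, (∀ y, U.B x y = 0) → x = 0) {𝔓 : Idl L} {w : Pr L} (hw : Over 𝔓 w) (h2 : 2 ∉ 𝔓)
  {ϖ : L} (v1 : Q.tau ϖ = -ϖ) (v2 : og w ϖ = 1) {Ψ : AddChar (𝓞 L) E} (s1 : Ψ ≠ 1)
  (s2 : ∀ x ∈ w.asIdeal, Ψ x = 1) {e : E} (he : Eps ρ 𝔓 ϖ Ψ e)

include v2 in
theorem v0 : algebraMap L (AlgebraicClosure L) ϖ ≠ 0 :=
  (_root_.map_ne_zero _).2 fun e => by simp [e, og, ord] at v2

theorem exb {N : ℕ} (hN : ((2 * N : ℕ) : 𝓞 (AlgebraicClosure L)) ∉ 𝔓) {x : AlgebraicClosure L}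
    (hx : x ≠ 0) : ∃ β, β ≠ 0 ∧ β ^ N = x := by
  have N0 : 0 < N := Nat.pos_of_ne_zero fun a => hN (by simp [a])
  obtain ⟨β, h⟩ := IsAlgClosed.exists_pow_nat_eq x N0
  exact ⟨β, fun e => hx (by rw [← h, e, zero_pow N0.ne']), h⟩

theorem eig {P : (Fin n → E) →ₗ[E] (Fin n → E) →ₗ[E] E} (hl : ∀ x, (∀ y, P x y = 0) → x = 0)
    (hr : ∀ y, (∀ x, P x y = 0) → y = 0) {T T' : End E (Fin n → E)} {Z Z' : Multiset E} {a : ℕ}
    (h : (T ^ a).charpoly = ((Z.map (· ^ a)).map fun z => X - C z).prod)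
    (h' : (T' ^ 1).charpoly = ((Z'.map (· ^ 1)).map fun z => X - C z).prod)
    (e : ∀ x y, P ((T ^ a) x) (T' y) = P x y) : Z' = Z.map fun z => (z ^ a)⁻¹ := by
  have i : LinearMap.det (T ^ a) ≠ 0 := (LinearMap.isUnit_iff_isUnit_det _).1
    ((LinearMap.isUnit_iff_ker_eq_bot _).2 (LinearMap.ker_eq_bot'.2 fun x hx =>
      hl x fun y => by rw [← e, hx, map_zero]; rfl)) |>.ne_zero
  have := det_aeval h X
  simp only [aeval_X, eval_X, Multiset.map_id'] at this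
  simpa using eig_inv P hl hr h h' (fun z hz a => i (this ▸ Multiset.prod_eq_zero (a ▸ hz)))
    (by simpa using e)

theorem dpoly {T : End E (Fin n → E)} {Z : Multiset E}
    (h : (T ^ 1).charpoly = ((Z.map (· ^ 1)).map fun z => X - C z).prod) (u : E[X]) :
    LinearMap.det (aeval T u) = (Z.map fun z => u.eval z).prod := by
  simpa using det_aeval h u

include hι hH ea hB hw h2 v1 v2 s1 s2 he

theorem locS (sp : Q.act w ≠ w) {𝔓' : Idl L} (hw' : Over 𝔓' (Q.act w)) {Ψ' : AddChar (𝓞 L) E}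
    (s3 : ∀ x, Ψ' (Q.sg x) = Ψ x) {e' : E} (he' : Eps ρ 𝔓' ϖ Ψ' e') : e * e' = 1 := by
  have T := facts K (AlgebraicClosure L)
  obtain ⟨a, -, rfl⟩ := T.pr.trans (T.pr.below (F := K) hw)
    ((st_Qd st_Cn).below_act Q w ▸ T.pr.below hw')
  have ha : a ∉ J.H := fun b => sp (T.pr.uniq hw' (T.pr.smul hw (hH ▸ b)))
  have ta := glK.tau Q a (hH ▸ ha)
  have h2' : 2 ∉ a • 𝔓 := fun b => h2 ((T.pr.mem_smul a 𝔓 2).1 (by
    rwa [show a • (2 : 𝓞 (AlgebraicClosure L)) = 2 from RingOfIntegers.ext (map_ofNat a 2)]))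
  have q : nq (a • 𝔓) = nq 𝔓 := by
    rw [nq_eq hw, nq_eq hw', (st_Qd st_Cn).act_ideal, (st_Qd st_Cn).norm_map]
  obtain ⟨κ, _, p, _, _, π, Φ, hπ, hΦ, A, -⟩ := exRes hw h2 s1 s2
  obtain ⟨D, D0, σ, α, f, a1, a2, a3, a4, a5⟩ := core ea U.stab hw.1 h2 he
  obtain ⟨D', D0', σ', α', f', b1, b2, b3, b4, b5⟩ := core ea U.stab hw'.1 h2' he'
  have hN := nmem hπ A h2 (mul_pos D0 D0')
  have ev : Even (nq 𝔓 ^ (D * D') - 1) := A.odd.pow.tsub_odd odd_one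
  obtain ⟨β, β0, hβ⟩ := exb hN (v0 v2)
  obtain ⟨t, ht, η, hη, et⟩ := sur hw v2 (fun b => hN (by
    rw [Nat.cast_mul]; exact 𝔓.mul_mem_left _ b)) hβ
  have ap : ∀ γ x, J.u (a * J.ι γ * a⁻¹) (a x) = a (γ x) := fun γ x => by
    rw [← hι, ι_u ha, ← hι]
    simp
  have hπ' : ∀ x, π (a⁻¹ • x) = 0 ↔ x ∈ a • 𝔓 := fun x => by
    rw [hπ, ← T.pr.mem_smul a, smul_inv_smul]
  have hN' : ((2 * (nq 𝔓 ^ (D * D') - 1) : ℕ) : 𝓞 (AlgebraicClosure L)) ∉ a • 𝔓 := fun b =>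
    hN ((hπ _).1 ((map_natCast π _).trans
      ((map_natCast (π.comp (MulSemiringAction.toRingHom _ _ a⁻¹)) _).symm.trans ((hπ' _).2 b))))
  have hη' := hη.map_of_injective (f := MulSemiringAction.toRingHom _ _ a) (MulAction.injective a)
  obtain ⟨m, d, ζ, c1, c2, rfl, c3, c4, -⟩ := a5 hπ hΦ hN ev
    (Nat.pow_sub_one_dvd_pow_sub_one _ (dvd_mul_right _ _)) β0 (by rw [hβ]) ht hη et
  obtain ⟨m', d', ζ', d1, -, rfl, d3, -, d5⟩ := b5
    (π := π.comp (MulSemiringAction.toRingHom _ _ a⁻¹)) (Φ := Φ) (β := a β)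
    (t := J.u (a * J.ι t * a⁻¹)) hπ' (fun y => by
      rw [← (st_Qd st_Cn).sg_sg Q y, s3, ← hΦ, ← show a • algebraMap _ (𝓞 (AlgebraicClosure L))
        (Q.sg y) = algebraMap _ _ (Q.sg (Q.sg y)) from RingOfIntegers.ext (ta _)]
      exact congrArg (fun x => Φ (π x)) (inv_smul_smul _ _)) hN' ev
    (q ▸ Nat.pow_sub_one_dvd_pow_sub_one _ (dvd_mul_left _ _)) ((_root_.map_ne_zero _).2 β0)
    (by rw [← map_pow, hβ, ta, v1, map_neg, neg_sq]) (by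
      rw [ine_iff hι, ι_u ha, T.pr.ine_conj]
      simpa [mul_assoc] using (ine_iff hι t).1 ht) hη' (by rw [ap, et, map_mul]; rfl)
  have f1 : IsFr (a • 𝔓) (nq 𝔓) (J.u (a * J.ι σ * a⁻¹)) := fun x => by
    rw [← i_smul hι, ι_u ha]
    refine (T.pr.fr_conj 𝔓 _ a _).2 (fun y => ?_) x
    simpa [mul_assoc, i_smul hι] using a1 y
  have T' := facts L (AlgebraicClosure L)
  rw [q] at b1 b2 d1 d3 d5 ⊢
  have g1 : (J.u (a * J.ι σ * a⁻¹))⁻¹ * σ' ∈ Ine L (a • 𝔓) := by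
    simpa [mul_assoc] using ine_nor (T'.fr.dec hw'.1 A.odd.pos.ne' f1) (T'.fr.ine b1 f1)
  obtain ⟨j, j1, j2⟩ := d5 _ g1
  have q1 := nmem hπ A h2 one_pos
  have α0 : ∀ {x : AlgebraicClosure L}, x ^ (nq 𝔓 - 1) = -algebraMap L _ ϖ → x ≠ 0 := fun h b =>
    v0 v2 (by rwa [b, zero_pow (Nat.sub_ne_zero_of_lt A.one), eq_comm, neg_eq_zero] at h)
  have dv : nq 𝔓 - 1 ∣ _ := Nat.sub_one_dvd_pow_sub_one _ (D * D')
  have a6 : a α ^ (nq 𝔓 - 1) = algebraMap L _ ϖ := by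
    rw [← map_pow, a2, map_neg, ta, v1, map_neg, neg_neg]
  have a7 : (a α / α') ^ (nq 𝔓 - 1) = -1 := by rw [div_pow, a6, b2, div_neg, div_self (v0 v2)]
  have a8 : σ' (a α) = -a α := by
    have := fr_root hw'.1 b1 (N := 2 * (nq 𝔓 - 1)) (fun b => hN' (Ideal.mem_of_dvd _
      (Nat.cast_dvd_cast (Nat.mul_dvd_mul_left 2 dv)) b)) (ξ := a α / α')
      (by rw [pow_mul', a7, neg_one_sq])
    rw [← Nat.sub_add_cancel A.one.le, pow_succ, a7] at this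
    rw [← div_mul_cancel₀ (a α) (α0 b2), map_mul, this, b3, neg_one_mul, neg_mul]
  have a9 := j2 (a α) (by rw [pow_mul', a6])
  rw [AlgEquiv.mul_apply, a8, map_neg, show (J.u (a * J.ι σ * a⁻¹))⁻¹ (a α) = a α from
    (AlgEquiv.symm_apply_eq _).2 (by rw [ap, a3]), ← neg_one_mul] at a9
  obtain ⟨l, l1, rfl⟩ := half_mod ((hη'.map_of_injective (f := algebraMap _ (AlgebraicClosure L))
    RingOfIntegers.coe_injective).pow (npos A (mul_pos D0 D0')) (Nat.div_mul_cancel dv).symm)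
    (Nat.sub_pos_of_lt A.one) (A.odd.tsub_odd odd_one)
    (mul_right_cancel₀ ((_root_.map_ne_zero a).2 (α0 a2)) a9.symm)
  have p1 := pr1 U ha t
  rw [cyc_q hw.1 h2 (ine_fr ((ine_iff hι t).1 ht)), Nat.cast_one] at p1
  simp only [one_mul] at p1
  have := linS _ (pr_l U hB) (pr_r U hB) (by simpa using (c3 0).1) (by simpa using (d3 0).1) p1
    A.odd.pos.ne' (fun x y => by
      rw [pr1 U ha σ, cyc_q hw.1 h2 fun x => by rw [i_smul hι]; exact a1 x]) c4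
    (by rw [← map_mul, mul_inv_cancel, map_one]) (γ := U.ρ.ac (_ * σ'))
    (by rw [← map_mul, ← map_mul, mul_inv_cancel_left, mul_inv_cancel, map_one])
    (fun x hx => (mem_inv ea).1 hx _ g1) a4 b4
  have z := eig (pr_r U hB) (pr_l U hB) (P := (pr U a).flip) (c3 1).2 (d3 1).2 fun x y => by
    simpa using p1 y x
  have k := blkS (ω := fun d => π η ^ ((nq 𝔓 ^ (D * D') - 1) / (nq 𝔓 ^ d - 1))) A c1 c2 d1
    (by simpa using z) l1
  have g0 : LinearMap.det (U.ρ.ac ((J.u (a * J.ι σ * a⁻¹))⁻¹ * σ')) ≠ 0 :=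
    (((Group.isUnit _).map U.ρ.ac).map LinearMap.det).ne_zero
  rw [dpoly (c3 1).2] at this
  rw [Multiset.prod_map_inv, show nq 𝔓 / 2 = (nq 𝔓 - 1) / 2 by obtain ⟨r, hr⟩ := A.odd; omega,
    ← j1] at k
  simp only [eval_mul, eval_C, eval_geom_sum] at this
  rw [← this] at k
  simp only [RingHom.comp_apply, MulSemiringAction.toRingHom_apply, inv_smul_smul]
  refine Eq.trans ?_ k
  field_simp

theorem locI (ns : Q.act w = w) (e1 : eI K w = 1) (s3 : ∀ x, Ψ (Q.sg x) = Ψ x) :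
    e = (-1) ^ finrank E ((Fin n → E) ⧸ Fx ρ (Ine L 𝔓)) := by
  have T := facts K (AlgebraicClosure L)
  have T' := facts L (AlgebraicClosure L)
  have b := T.pr.below (F := K) hw
  obtain ⟨⟨a, a0⟩, fa⟩ := exFr b
  obtain ⟨ev', le⟩ := ine_le Q hH hw h2 e1
  have ha : a ∉ J.H := fun h => (Q.split_iff w).2 ((T.ine.leg b ((T.pr.two b).1 h2) Q.a_ne
    (glK.sq Q).2 ev' a (by rw [Gs_self]; trivial) fa).1 ((GlAux.iff Q _).1 (hH ▸ h))) ns
  have ta := glK.tau Q a (hH ▸ ha)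
  obtain ⟨κ, _, p, pp, _, π, Φ, hπ, hΦ, A, sj, -⟩ := exRes hw h2 s1 s2
  have q : Ideal.absNorm (below K w).asIdeal ^ 2 = nq 𝔓 := by
    rw [nq_eq hw]
    rcases Q.efg w with e | e | e
    exacts [(e.1 ns).elim, e.2.2.symm, by omega]
  obtain ⟨s, -, hs⟩ := (Nat.dvd_prime_pow pp.out).1
    (A.pw.choose_spec ▸ q ▸ dvd_pow_self (Ideal.absNorm (below K w).asIdeal) two_ne_zero)
  rw [hs] at q fa
  have hΨ : ∀ y, y ^ nq 𝔓 = y → Φ (y ^ p ^ s) = Φ y := fun y hy => by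
    obtain ⟨y, rfl⟩ := sj y hy
    have := (hπ _).2 (fa (algebraMap _ _ y))
    rw [map_sub, sub_eq_zero, map_pow, show a • algebraMap _ (𝓞 (AlgebraicClosure L)) y =
      algebraMap _ _ (Q.sg y) from RingOfIntegers.ext (ta _)] at this
    rw [← this, hΦ, hΦ, s3]
  obtain ⟨r, hr⟩ : Odd (p ^ s) := (Nat.odd_pow_iff two_ne_zero).1 (q ▸ A.odd)
  obtain ⟨D, D0, σ, α, f, a1, a2, a3, a4, a5⟩ := core ea U.stab hw.1 h2 he
  have hN := nmem hπ A h2 D0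
  have ev : Even (nq 𝔓 ^ D - 1) := A.odd.pow.tsub_odd odd_one
  obtain ⟨β, β0, hβ⟩ := exb hN (v0 v2)
  obtain ⟨t, ht, η, hη, et⟩ := sur hw v2 (fun b => hN (by
    rw [Nat.cast_mul]; exact 𝔓.mul_mem_left _ b)) hβ
  obtain ⟨m, d, ζ, c1, c2, rfl, c3, -, c5⟩ := a5 hπ hΦ hN ev dvd_rfl β0 (by rw [hβ]) ht hη et
  have pη := hη.map_of_injective (f := algebraMap _ (AlgebraicClosure L))
    RingOfIntegers.coe_injective
  have N0 := npos A D0
  have r0 := pow_ne_zero ((nq 𝔓 ^ D - 1) / 2) β0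
  have r1 : (β ^ ((nq 𝔓 ^ D - 1) / 2)) ^ 2 = algebraMap L _ ϖ := by
    rw [← pow_mul, Nat.div_mul_cancel ev.two_dvd, hβ]
  have r2 : t (β ^ ((nq 𝔓 ^ D - 1) / 2)) = -β ^ ((nq 𝔓 ^ D - 1) / 2) := by
    rw [map_pow, et, mul_pow, show (η : AlgebraicClosure L) ^ _ = -1 from half pη N0 ev, neg_one_mul]
  have s3 := J.u1 _ (J.two _ _ ha ha)
  have f0 : IsFr 𝔓 (nq 𝔓) (J.u (a * a)) := fun x => by
    have := T.fr.pow hw.1 (pow_ne_zero s pp.out.ne_zero) fa 2 x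
    rwa [q, pow_two, ← s3, i_smul hι] at this
  have k1 := relK hw.1 h2 ((ine_iff hι t).1 ht) r0 (fun g hg => by
    rw [r1]; exact (hH ▸ le hg) ϖ) ((hι _ _).trans r2) U.stabT (pow_ne_zero s pp.out.ne_zero) fa
  have k2 : U.ρ.ac (J.u (a * J.ι t * a⁻¹)) = U.ρ.ac t ^ p ^ s := LinearMap.ext fun x => by
    have : U.R.ac (J.ι (J.u (a * J.ι t * a⁻¹))) = U.R.ac (J.ι (t ^ p ^ s)) := by
      rw [ι_u ha, map_mul, map_mul, k1, mul_assoc, ← map_mul, mul_inv_cancel, map_one, mul_one,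
        map_pow, map_pow]
    rw [← map_pow]
    simpa only [U.R_in (J.mem _), J.u_ι] using congrArg Prod.fst (LinearMap.congr_fun this (x, 0))
  have g1 : (J.u (a * a))⁻¹ * σ ∈ Ine L 𝔓 := by
    simpa [mul_assoc] using ine_nor (T'.fr.dec hw.1 A.odd.pos.ne' f0) (T'.fr.ine a1 f0)
  obtain ⟨j, j1, j2⟩ := c5 _ g1
  have q1 := nmem hπ A h2 one_pos
  rw [pow_one] at q1
  have α0 : α ≠ 0 := fun b =>
    v0 v2 (by rwa [b, zero_pow (Nat.sub_ne_zero_of_lt A.one), eq_comm, neg_eq_zero] at a2)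
  have dv : nq 𝔓 - 1 ∣ _ := Nat.sub_one_dvd_pow_sub_one _ D
  have eq : nq 𝔓 - 1 = 2 * r * (p ^ s + 1) := by
    rw [← q, hr]; exact Nat.sub_eq_of_eq_add (by ring)
  have a7 : (a α / α) ^ (nq 𝔓 - 1) = -1 := by
    rw [div_pow, ← map_pow, a2, map_neg, ta, v1, map_neg, neg_neg, div_neg, div_self (v0 v2)]
  have a8 : J.u (a * a) α = (a α / α) ^ (p ^ s + 1) * α := by
    rw [← hι, s3, AlgEquiv.mul_apply]
    nth_rw 1 [← div_mul_cancel₀ (a α) α0]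
    rw [map_mul, fr_root hw.1 fa q1 (by rw [pow_mul', a7, neg_one_sq]), pow_succ, mul_assoc,
      div_mul_cancel₀ _ α0]
  have p0 := pη.pow N0 (Nat.div_mul_cancel dv).symm
  have a9 := congrArg (J.u (a * a)) (j2 α (by rw [pow_mul', a2, neg_sq]))
  have c0 : ((η ^ ((nq 𝔓 ^ D - 1) / (nq 𝔓 - 1)) : AlgebraicClosure L) ^ j) ^ (nq 𝔓 - 1) = 1 := by
    rw [pow_right_comm]
    exact (congrArg (· ^ j) p0.pow_eq_one).trans (one_pow _)
  rw [← AlgEquiv.mul_apply, mul_inv_cancel_left, a3, map_mul, fr_root hw.1 f0 q1 (by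
    rw [pow_mul', c0, one_pow]), a8, ← mul_assoc, eq_comm, mul_eq_right₀ α0,
    ← pow_sub_one_mul A.odd.pos.ne', c0, one_mul] at a9
  replace a9 := congrArg (· ^ (2 * r)) a9
  simp only [mul_pow, one_pow] at a9
  rw [← pow_mul (a α / α), mul_comm _ (2 * r), ← eq, a7, mul_neg_one, neg_eq_iff_eq_neg,
    pow_right_comm] at a9
  obtain ⟨l, l1, rfl⟩ := half_mod (p0.pow (Nat.sub_pos_of_lt A.one) eq) (Nat.succ_pos _)
    ⟨r + 1, by omega⟩ a9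
  have p1 := pr1 U ha t
  rw [cyc_q hw.1 h2 (ine_fr ((ine_iff hι t).1 ht)), Nat.cast_one, k2] at p1
  simp only [one_mul] at p1
  have := linI _ (pr_l U hB) (pr_r U hB) (by simpa using (c3 0).1) (pow_ne_zero s pp.out.ne_zero)
    (hr ▸ (c3 r).1) p1 (fun x y => by rw [pr2 U ha, cyc_q hw.1 h2 fa]) (by
      rw [← pow_mul, ← sq (p ^ s), q]
      exact relK hw.1 h2 ht r0 (fun g _ => by rw [r1, g.commutes]) r2 U.stab A.odd.pos.ne' f0)
    (γ := U.ρ.ac (_ * σ))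
    (by rw [← map_mul, ← map_mul, mul_inv_cancel_left, mul_inv_cancel, map_one])
    (fun x hx => (mem_inv ea).1 hx _ g1) a4
  have k := blkI (ω := fun d => π η ^ ((nq 𝔓 ^ D - 1) / (nq 𝔓 ^ d - 1))) A c1 c2 q hΨ l1
    (eig (pr_l U hB) (pr_r U hB) (c3 _).2 (c3 1).2 p1).symm
  have g0 : LinearMap.det (U.ρ.ac ((J.u (a * a))⁻¹ * σ)) ≠ 0 :=
    (((Group.isUnit _).map U.ρ.ac).map LinearMap.det).ne_zero
  rw [dpoly (c3 1).2] at this
  simp only [eval_mul, eval_C, eval_finsetSum, eval_X, eval_pow] at this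
  rw [Multiset.prod_map_mul, Multiset.prod_map_inv, ← j1, ← this] at k
  rw [← inv_neg_one, inv_pow]
  refine eq_inv_of_mul_eq_one_right (Eq.trans ?_ k)
  field_simp

theorem locR (e2 : eI K w = 2)
    (h0 : ∀ x, (∀ g : Dec L 𝔓, U.ρ.ac g x = x) → x = 0) : ∃ τ ∈ Ine K 𝔓, τ ∉ J.H ∧ ∃ t σ M,
      J.ι t = τ * τ ∧ IsFr 𝔓 (nq 𝔓) σ ∧ Tw ρ (nq 𝔓) t σ M ∧ e = (-1) ^ fdim {M} := by
  have b := (facts K (AlgebraicClosure L)).pr.below (F := K) hw
  obtain ⟨κ, _, p, pp, _, π, Φ, hπ, hΦ, A, -, po, ξ, hξ⟩ := exRes hw h2 s1 s2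
  obtain ⟨D, D0, σ, α, f, a1, a2, a3, a4, a5⟩ := core ea U.stab hw.1 h2 he
  have hN := nmem hπ A h2 D0
  have ev : Even (nq 𝔓 ^ D - 1) := A.odd.pow.tsub_odd odd_one
  obtain ⟨β, β0, hβ⟩ := exb hN (v0 v2)
  obtain ⟨x, hx⟩ : ∃ x : K, algebraMap K L x = ϖ ^ 2 := by
    obtain ⟨g, h, rfl⟩ := Q.span ϖ
    rw [Q.tau_mk] at v1
    exact ⟨-(g ^ 2 - d * h ^ 2), by rw [map_neg, ← Q.mul_tau_mk, Q.tau_mk, v1]; ring⟩
  have x1 := og_algebraMap w x
  rw [hx, e2, og, ord_pow, ← og, v2] at x1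
  have x2 : algebraMap L (AlgebraicClosure L) ϖ ^ 2 = algebraMap K _ x := by
    rw [← map_pow, ← hx, GlAux.alg]
  obtain ⟨τ, t1, η, hη, et⟩ := sur b (ϖ := x) (by omega) hN (α := β) (by rw [pow_mul', hβ, x2])
  have pη := hη.map_of_injective (f := algebraMap _ (AlgebraicClosure L))
    RingOfIntegers.coe_injective
  have N0 := npos A D0
  have r2 : τ (algebraMap L _ ϖ) = -algebraMap L _ ϖ := by
    have := half pη (by omega) (even_two_mul _)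
    rw [Nat.mul_div_cancel_left _ two_pos] at this
    rw [← hβ, map_pow, et, mul_pow, show (η : AlgebraicClosure L) ^ _ = -1 from this, neg_one_mul]
  have ha : τ ∉ J.H := fun h => v0 v2 (by
    have := ((hH ▸ h) ϖ).symm.trans r2
    linear_combination (1 / 2 : AlgebraicClosure L) * this)
  have s3 := J.u1 _ (J.two _ _ ha ha)
  have ht : J.u (τ * τ) ∈ Ine L 𝔓 := (ine_iff hι _).2 (s3.symm ▸ mul_mem t1 t1)
  obtain ⟨m, d, ζ, c1, c2, rfl, c3, c4, -⟩ := a5 hπ hΦ hN ev dvd_rfl β0 (by rw [hβ]) ht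
    (hη.pow (by omega) rfl) (by
      rw [← hι, s3, AlgEquiv.mul_apply, et, map_mul, et, fr_root hw.1 (ine_fr t1) hN pη.pow_eq_one,
        pow_one, ← mul_assoc, ← sq]
      rfl)
  have p0 := prim hπ hw.1 hN (hη.pow (by omega) rfl)
    (Nat.pow_sub_one_dvd_pow_sub_one (nq 𝔓) (one_dvd D))
  obtain ⟨r, hr⟩ := A.odd
  obtain ⟨s, hs⟩ := A.pw
  have g := g1 A one_pos p0 (ζ := -1) (by rw [pow_one]; exact (A.odd.tsub_odd odd_one).neg_one_pow)
    (by norm_num)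
  rw [inv_neg_one, pow_one, pow_one, show (nq 𝔓 - 1) / 2 = nq 𝔓 / 2 by omega, ← neg_mul_neg] at g
  obtain ⟨u, u1, u2, u3, u4, u5⟩ := exU (f := s) po (by
    rw [← map_natCast (algebraMap ℚ_[2] E), norm_algebraMap', Padic.norm_natCast_eq_one_iff]
    exact Nat.coprime_two_left.2 po) hξ (by rw [← hs]; exact g)
  rw [← hs] at u4 u5
  have f1 : IsFr 𝔓 (2 * r + 1) (J.ι σ) := fun x => by rw [i_smul hι, ← hr]; exact a1 x
  have tt : U.ρ.ac (J.u (τ * τ))⁻¹ * U.ρ.ac (J.u (τ * τ)) = 1 := by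
    rw [← map_mul, inv_mul_cancel, map_one]
  have p2 := pr2 U ha
  rw [cyc_q hw.1 h2 (ine_fr t1), Nat.cast_one] at p2
  simp only [one_mul] at p2
  have s4 := (facts L (AlgebraicClosure L)).fr.dec hw.1 A.odd.pos.ne' a1
  have := linR _ (pr_l U hB) (by simpa using (c3 0).1) tt
    (by rw [← map_mul, mul_inv_cancel, map_one]) p2 (fun x y => by
      rw [pr3 U ha (relK hw.1 h2 t1 (v0 v2) (fun g _ => by rw [x2, g.commutes]) r2 U.stabT
        (Nat.succ_ne_zero _) f1), cyc_q hw.1 h2 f1]) (hr ▸ c4) u2 (by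
      have := u5 U.ρ.ac (J.u (τ * τ))
      rwa [hr, show (2 * r + 1) / 2 = r by omega] at this)
    (by rw [← map_mul, mul_inv_cancel, map_one]) (fun x hx => (mem_inv ea).2 fun g hg => by
      have := congrArg (U.ρ.ac σ) ((mem_inv ea).1 hx _ (ine_nor s4 hg))
      rwa [← U.ρ.mul, ← mul_assoc, mul_inv_cancel_left, U.ρ.mul] at this)
    (fun x hx a => h0 x (fixD hw.1 h2 U.stab hw (nq_eq hw ▸ a1) a ((mem_inv ea).1 hx))) a4
  have k := blkR (ω := fun d => π (η ^ 2) ^ ((nq 𝔓 ^ D - 1) / (nq 𝔓 ^ d - 1))) A c1 c2 u2 u4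
    (by rwa [pow_one]) (by
    simpa using (eig (pr_l U hB) (pr_r U hB) (c3 1).2 (c3 1).2 fun x y => by
      rw [pow_one, p2, p2, neg_neg]).symm)
  refine ⟨τ, t1, ha, _, σ, _, s3, a1, ⟨u, u1, u2, rfl, u5 ρ _⟩, ?_⟩
  rw [this, dpoly (c3 1).2, mul_assoc, k, mul_one, fdim_eq (S := LinearMap.ker
    (aeval (U.ρ.ac (J.u (τ * τ))) u * U.ρ.ac σ - 1)) fun x => by
      simp only [ea, aeval_algHom_apply, ← map_mul, LinearMap.mem_ker, LinearMap.sub_apply,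
        sub_eq_zero, Set.mem_singleton_iff, forall_eq]
      rfl]

end Pool.Agent.EP
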