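import Pool.Agent.Lib.MP_b4b3cb_nt.Eps.Gauss

/-! Products of Gauss sums over the orbits of the power map. -/

namespace Pool.Agent.EP

open Finset
open scoped Classical

theorem pair {ι X M : Type} [CommMonoid M] (O : ι → Multiset X) (s : X → X) (H : ι → M)
    (x : ι → X) (h0 : ∀ i, x i ∈ O i)
    (h1 : ∀ i j, s (x i) ∈ O j → (O i).map s = O j ∧ (O j).map s = O i ∧ H i * H j = 1)
    (h2 : ∀ i, s (x i) ∈ O i → H i = 1) (I : Finset ι)
    (h : (∑ i ∈ I, O i).map s = ∑ i ∈ I, O i) : ∏ i ∈ I, H i = 1 := by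
  induction I using Finset.strongInduction with
  | H I ih =>
  rcases I.eq_empty_or_nonempty with rfl | ⟨i, hi⟩
  · rfl
  obtain ⟨j, hj, e⟩ := Multiset.mem_sum.1
    (h ▸ Multiset.mem_map_of_mem s (Multiset.mem_sum.2 ⟨i, hi, h0 i⟩))
  by_cases ij : s (x i) ∈ O i
  · rw [← add_sum_erase _ _ hi, Multiset.map_add, (h1 i i ij).1, add_right_inj] at h
    rw [← mul_prod_erase _ _ hi, h2 i ij, ih _ (erase_ssubset hi) h, mul_one]
  · have hj' : j ∈ I.erase i := mem_erase.2 ⟨fun a => ij (a ▸ e), hj⟩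
    obtain ⟨a, b, c⟩ := h1 i j e
    rw [← add_sum_erase _ _ hi, ← add_sum_erase _ _ hj', Multiset.map_add, Multiset.map_add, a, b,
      add_left_comm, add_right_inj, add_right_inj] at h
    rw [← mul_prod_erase _ _ hi, ← mul_prod_erase _ _ hj', ← mul_assoc, c, one_mul]
    exact ih _ ((erase_subset _ _).trans_ssubset (erase_ssubset hi)) h

theorem mat {ι ι' X M : Type} [CommMonoid M] (O : ι → Multiset X) (O' : ι' → Multiset X)
    (H : ι → M) (H' : ι' → M) (x : ι → X) (x' : ι' → X) (h0 : ∀ i, x i ∈ O i) (h0' : ∀ i, x' i ∈ O' i)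
    (h1 : ∀ i j, x i ∈ O' j → O i = O' j ∧ H i * H' j = 1) (I : Finset ι) (I' : Finset ι')
    (h : ∑ i ∈ I, O i = ∑ i ∈ I', O' i) : (∏ i ∈ I, H i) * ∏ i ∈ I', H' i = 1 := by
  induction I using Finset.induction generalizing I' with
  | empty =>
    rw [eq_empty_of_forall_notMem (s := I') fun j hj => Multiset.notMem_zero _
      (sum_empty.symm.trans h ▸ Multiset.mem_sum.2 ⟨j, hj, h0' j⟩)]
    simp
  | insert i I hi ih =>
    obtain ⟨j, hj, e⟩ := Multiset.mem_sum.1 (h ▸ Multiset.mem_sum.2 ⟨i, mem_insert_self _ _, h0 i⟩)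
    rw [sum_insert hi, ← add_sum_erase _ _ hj, (h1 i j e).1, add_right_inj] at h
    rw [prod_insert hi, ← mul_prod_erase _ _ hj, mul_mul_mul_comm, (h1 i j e).2, ih _ h, mul_one]

theorem msum {ι X Y : Type} (f : X → Y) (I : Finset ι) (O : ι → Multiset X) :
    (∑ i ∈ I, O i).map f = ∑ i ∈ I, (O i).map f := map_sum (Multiset.mapAddMonoidHom f) _ _

variable {κ E : Type} [Field κ] [Field E] {p q d : ℕ} {x : E}

/-- The orbit. -/
def orb (q d : ℕ) (x : E) : Multiset E := ∑ j ∈ range d, {x ^ q ^ j}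

/-- `d` is the period of `x`. -/
structure Per (q d : ℕ) (x : E) : Prop where
  q0 : q ≠ 0
  pos : 0 < d
  one : x ^ (q ^ d - 1) = 1
  min : ∀ j, 0 < j → j < d → x ^ q ^ j ≠ x

theorem orb_prod {M : Type} [CommMonoid M] (h : E → M) :
    ((orb q d x).map h).prod = ∏ j ∈ range d, h (x ^ q ^ j) := by
  simp [orb, msum, Multiset.prod_sum]

theorem mem_orb {y : E} : y ∈ orb q d x ↔ ∃ j < d, y = x ^ q ^ j := by
  simp [orb, Multiset.mem_sum]

theorem orb_s (a : ℕ) : (orb q d x).map (fun y => (y ^ a)⁻¹) = orb q d (x ^ a)⁻¹ := by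
  simp only [orb, msum, Multiset.map_singleton, inv_pow, pow_right_comm x a]

theorem orb_rot (h : x ^ q ^ d = x) (k : ℕ) : orb q d (x ^ q ^ k) = orb q d x := by
  induction k with
  | zero => simp
  | succ k ih =>
    have := (sum_range_succ' (fun j => ({(x ^ q ^ k) ^ q ^ j} : Multiset E)) d).symm.trans
      (sum_range_succ _ d)
    rw [pow_right_comm x _ (q ^ d), h, pow_zero, pow_one, add_left_inj] at this
    rw [← ih, orb, orb, ← this]
    simp only [pow_succ', pow_mul, pow_right_comm x q]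

theorem rot (h : x ^ q ^ d = x) (F : E → E) :
    ∏ j ∈ range d, F ((x ^ q ^ j) ^ q) = ∏ j ∈ range d, F (x ^ q ^ j) := by
  rw [← orb_prod, ← orb_rot h 1, orb_prod, pow_one]
  simp only [pow_right_comm x q]

theorem tel (j : ℕ) :
    (∏ i ∈ range j, ∑ l ∈ range q, (x ^ q ^ i) ^ l) * (x - 1) = x ^ q ^ j - 1 := by
  induction j with
  | zero => simp
  | succ j ih => rw [prod_range_succ, mul_right_comm, ih, mul_geom_sum, ← pow_mul, ← pow_succ]

theorem pexp (hq : Odd q) (j : ℕ) :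
    ∏ i ∈ range j, (x ^ q ^ i) ^ (q / 2) = x ^ ((q ^ j - 1) / 2) := by
  obtain ⟨r, rfl⟩ := hq
  rw [prod_pow, prod_pow_eq_pow_sum, ← pow_mul, ← geom_sum_mul_add, Nat.add_sub_cancel,
    mul_left_comm, Nat.mul_div_cancel_left _ two_pos, show (2 * r + 1) / 2 = r by omega]

namespace Per

variable (h : Per q d x)

include h

theorem fix : x ^ q ^ d = x := by
  rw [← Nat.sub_add_cancel (Nat.one_le_iff_ne_zero.2 (pow_ne_zero d h.q0)), pow_succ, h.one, one_mul]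

theorem fix' (k : ℕ) : x ^ q ^ (d * k) = x := by rw [pow_mul, pow_fix h.fix]

theorem dvd {k : ℕ} (e : x ^ q ^ k = x) : d ∣ k := by
  rw [← Nat.div_add_mod k d, pow_add, pow_mul, h.fix'] at e
  exact Nat.dvd_of_mod_eq_zero (by_contra fun a =>
    h.min _ (Nat.pos_of_ne_zero a) (Nat.mod_lt _ h.pos) e)

theorem back (j : ℕ) : (x ^ q ^ j) ^ q ^ ((d - 1) * j) = x := by
  rw [← pow_mul, ← pow_add, ← one_add_mul, Nat.add_sub_cancel' (show 1 ≤ d from h.pos), h.fix']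

theorem self : x ∈ orb q d x := mem_orb.2 ⟨0, h.pos, by simp⟩

theorem ne1 (h1 : x ≠ 1) (j : ℕ) : x ^ q ^ j ≠ 1 := fun e => h1 (by rw [← h.back j, e, one_pow])

theorem s {a e : ℕ} (ha : a ^ 2 = q ^ e) : Per q d (x ^ a)⁻¹ :=
  ⟨h.q0, h.pos, by rw [inv_pow, pow_right_comm, h.one, one_pow, inv_one], fun j j0 j1 b =>
    h.min j j0 j1 (by
      rw [inv_pow, inv_inj] at b
      rw [← h.back e, pow_right_comm, ← ha, sq, pow_mul, pow_right_comm _ a, b])⟩

theorem link {d' : ℕ} {y : E} (h' : Per q d' y) (m : y ∈ orb q d x) :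
    d' = d ∧ ∃ k, y = x ^ q ^ k := by
  obtain ⟨j, -, rfl⟩ := mem_orb.1 m
  refine ⟨Nat.dvd_antisymm (h'.dvd (by rw [pow_right_comm, h.fix])) (h.dvd ?_), j, rfl⟩
  rw [← h.back j, pow_right_comm, h'.fix]

theorem telq (h1 : x ≠ 1) : ∏ i ∈ range d, ∑ l ∈ range q, (x ^ q ^ i) ^ l = 1 :=
  mul_right_cancel₀ (sub_ne_zero.2 h1) (by rw [tel, h.fix, one_mul])

end Per

/-- The value of a block. -/
noncomputable def bv (q : ℕ) (Ψ : κ → E) (ω : ℕ → κ) (h : E → E) (d : ℕ) (x : E) : E :=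
  (∏ j ∈ range d, h (x ^ q ^ j)) * -gs q Ψ (ω d) d x

variable [Fact p.Prime] [CharP κ p] {Ψ : κ → E} {ω : ℕ → κ} (A : AC p q Ψ)

include A

section One

variable (h : Per q d x) (hω : IsPrimitiveRoot (ω d) (q ^ d - 1))

include h hω

omit [Fact p.Prime] [CharP κ p] hω in
theorem ne0 : x ≠ 0 := fun e => by simpa [e, (npos A h.pos).ne'] using h.one

theorem bv_rot (F : E → E) (k : ℕ) : bv q Ψ ω F d (x ^ q ^ k) = bv q Ψ ω F d x := by
  obtain ⟨f, hf⟩ := A.pw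
  have := g2 A h.pos hω (a := f * k) (fun y hy => by rw [pow_mul, ← hf, pow_fix hy]) h.one
  rw [pow_mul, ← hf] at this
  rw [bv, bv, this, ← orb_prod, ← orb_prod, orb_rot h.fix]

theorem bv_one {F : E → E} (h1 : x = 1) (e : F 1 = 1) : bv q Ψ ω F d x = 1 := by
  simp [bv, h1, e, g0 A h.pos hω]

omit [Fact p.Prime] [CharP κ p] hω in
theorem eps : x ^ ((q ^ d - 1) / 2) * x ^ ((q ^ d - 1) / 2) = 1 := by
  obtain ⟨r, hr⟩ := A.odd.pow (n := d)
  rw [← pow_add, ← h.one]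
  congr 1
  omega

end One

variable {ι : Type} [Fintype ι] {n : ι → ℕ} {ζ : ι → E} (hp : ∀ i, Per q (n i) (ζ i))
  (hω : ∀ i, IsPrimitiveRoot (ω (n i)) (q ^ n i - 1))

omit [Fact p.Prime] [CharP κ p] A in
theorem prod_bv (F : E → E) : ∏ i, bv q Ψ ω F (n i) (ζ i) =
    ((∑ i, orb q (n i) (ζ i)).map F).prod * ∏ i, -gs q Ψ (ω (n i)) (n i) (ζ i) := by
  simp only [bv, prod_mul_distrib, msum, Multiset.prod_sum, orb_prod]

include hp hω

theorem blocks {a e : ℕ} (ha : a ^ 2 = q ^ e) (F : E → E)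
    (h1 : ∀ i, bv q Ψ ω F (n i) (ζ i) * bv q Ψ ω F (n i) (ζ i ^ a)⁻¹ = 1)
    (h2 : ∀ i, (ζ i ^ a)⁻¹ ∈ orb q (n i) (ζ i) → bv q Ψ ω F (n i) (ζ i) = 1)
    (hZ : (∑ i, orb q (n i) (ζ i)).map (fun y => (y ^ a)⁻¹) = ∑ i, orb q (n i) (ζ i)) :
    ((∑ i, orb q (n i) (ζ i)).map F).prod * ∏ i, -gs q Ψ (ω (n i)) (n i) (ζ i) = 1 := by
  rw [← prod_bv]
  refine pair _ _ _ ζ (fun i => (hp i).self) (fun i j m => ?_) h2 _ hZ
  obtain ⟨b, k, c⟩ := (hp j).link ((hp i).s ha) m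
  have := orb_rot (hp j).fix k
  rw [← bv_rot A (hp j) (hω j) F k, ← this, ← c, ← b, orb_s, orb_s, inv_pow, inv_inv, ← pow_mul,
    ← sq, ha, orb_rot (hp i).fix]
  exact ⟨rfl, rfl, h1 i⟩

variable [CharZero E]

theorem blkS {ι' : Type} [Fintype ι'] {n' : ι' → ℕ} {ζ' : ι' → E} (hp' : ∀ i, Per q (n' i) (ζ' i))
    (hZ : ∑ i, orb q (n' i) (ζ' i) = (∑ i, orb q (n i) (ζ i)).map fun y => y⁻¹) {l : ℕ}
    (hl : Odd l) :
    (((∑ i, orb q (n i) (ζ i)).map fun y => (q : E)⁻¹ * ∑ i ∈ range q, y ^ i).prod *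
      ∏ i, -gs q Ψ (ω (n i)) (n i) (ζ i)) *
    (((∑ i, orb q (n' i) (ζ' i)).map fun y => (y ^ (q / 2 * l))⁻¹).prod *
      ∏ i, -gs q Ψ (ω (n' i)) (n' i) (ζ' i)) = 1 := by
  have q0 : (q : E) ≠ 0 := Nat.cast_ne_zero.2 A.odd.pos.ne'
  have s := fun i => (hp i).s (a := 1) (e := 0) rfl
  have o := fun i => orb_s (q := q) (d := n i) (x := ζ i) 1
  simp only [pow_one] at s o
  rw [← prod_bv, ← prod_bv]
  refine mat _ _ _ _ (fun i => (ζ i)⁻¹) ζ' (fun i => (s i).self) (fun i => (hp' i).self)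
    (fun i j m => ?_) _ _ (by simp only [hZ, msum, o])
  obtain ⟨b, k, c⟩ := (hp' j).link (s i) m
  rw [← bv_rot A (hp' j) (b ▸ hω i) _ k, ← orb_rot (hp' j).fix k, ← c, ← b]
  refine ⟨rfl, ?_⟩
  by_cases h1 : ζ i = 1
  · rw [bv_one A (hp i) (hω i) h1 (by simp [q0]), bv_one A (s i) (hω i) (by simp [h1]) (by simp),
      one_mul]
  rw [bv, bv, mul_mul_mul_comm, neg_mul_neg, g1 A (hp i).pos (hω i) (hp i).one h1, prod_mul_distrib,
    (hp i).telq h1]
  simp only [inv_pow, inv_inv, pow_mul, prod_pow _ l, pexp A.odd, prod_const, card_range]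
  rcases mul_self_eq_one_iff.1 (eps A (hp i)) with e | e <;> simp [e, hl.neg_one_pow, q0]

theorem blkR {u : E → E} (u1 : u 1 = 1)
    (u2 : ∀ y, y ≠ 0 → q * (u y * u y⁻¹ * y ^ (q / 2)) = ∑ i ∈ range q, y ^ i)
    (u3 : u (-1) * -gs q Ψ (ω 1) 1 (-1) = 1)
    (hZ : (∑ i, orb q (n i) (ζ i)).map (fun y => y⁻¹) = ∑ i, orb q (n i) (ζ i)) :
    ((∑ i, orb q (n i) (ζ i)).map u).prod * ∏ i, -gs q Ψ (ω (n i)) (n i) (ζ i) = 1 := by
  have t : ∀ i j, (∏ l ∈ range j, u (ζ i ^ q ^ l)) * (∏ l ∈ range j, u (ζ i ^ q ^ l)⁻¹) *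
      (ζ i ^ ((q ^ j - 1) / 2) * q ^ j) * (ζ i - 1) = ζ i ^ q ^ j - 1 := fun i j => by
    rw [← tel, ← prod_congr rfl fun l _ => u2 _ (pow_ne_zero _ (ne0 A (hp i)))]
    simp only [prod_mul_distrib, pexp A.odd, prod_const, card_range]
    ring
  refine blocks A hp hω (a := 1) (e := 0) rfl u (fun i => ?_) (fun i m => ?_) (by simpa using hZ)
  · by_cases h1 : ζ i = 1
    · rw [bv_one A (hp i) (hω i) h1 u1, bv_one A ((hp i).s (e := 0) rfl) (hω i) (by simp [h1]) u1,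
        one_mul]
    rw [bv, bv, mul_mul_mul_comm, neg_mul_neg, pow_one, g1 A (hp i).pos (hω i) (hp i).one h1]
    simp only [inv_pow]
    exact mul_right_cancel₀ (sub_ne_zero.2 h1) (by rw [t, (hp i).fix, one_mul])
  by_cases h1 : ζ i = 1
  · exact bv_one A (hp i) (hω i) h1 u1
  obtain ⟨j, j1, e⟩ := mem_orb.1 m
  rw [pow_one] at e
  have z0 := ne0 A (hp i)
  rcases j.eq_zero_or_pos with rfl | j0
  · have e1 : ζ i = -1 := (mul_self_eq_one_iff.1 (by
      simpa using mul_eq_one_iff_inv_eq₀ z0 |>.2 e)).resolve_left h1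
    have e2 : n i = 1 := Nat.dvd_one.1 ((hp i).dvd (by rw [e1, pow_one, A.odd.neg_one_pow]))
    simpa [bv, e1, e2] using u3
  obtain ⟨c, hc⟩ := (hp i).dvd (k := j + j) (by rw [pow_add, pow_mul, ← e, inv_pow, ← e, inv_inv])
  obtain rfl : c = 1 := by
    rcases c with _ | _ | c
    · omega
    · rfl
    · nlinarith
  obtain ⟨f, hf⟩ := A.pw
  have g := g3 A (hp i).pos (hω i) (a := f * j) (fun y hy => by rw [pow_mul, ← hf, pow_fix hy])
    (ζ := ζ i)
  rw [pow_mul, ← hf] at g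
  obtain ⟨r, hr⟩ := A.odd.pow (n := j)
  have := t i j
  rw [bv, g (by rw [sq, ← pow_add, hc, mul_one]) (by rw [pow_succ, ← e, inv_mul_cancel₀ z0]) h1,
    ← mul_one (n i), ← hc, prod_range_add, show (q ^ j + 1) / 2 = (q ^ j - 1) / 2 + 1 by omega,
    pow_succ, Nat.cast_pow]
  simp only [pow_add, pow_mul, ← e, inv_pow] at this ⊢
  refine mul_right_cancel₀ (sub_ne_zero.2 h1) ?_
  linear_combination -ζ i * this - mul_inv_cancel₀ z0

theorem blkI {b l : ℕ} (hq : (p ^ b) ^ 2 = q) (hΨ : ∀ y, y ^ q = y → Ψ (y ^ p ^ b) = Ψ y)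
    (hl : Odd l) (hZ : (∑ i, orb q (n i) (ζ i)).map (fun y => (y ^ p ^ b)⁻¹) =
      ∑ i, orb q (n i) (ζ i)) :
    ((∑ i, orb q (n i) (ζ i)).map fun y => ((p ^ b : ℕ) : E)⁻¹ *
      (y ^ p ^ b * ∑ i ∈ range (p ^ b), (y ^ p ^ b) ^ i) * (y ^ ((p ^ b + 1) / 2 * l))⁻¹).prod *
      ∏ i, -gs q Ψ (ω (n i)) (n i) (ζ i) = 1 := by
  have G2 := fun i => g2 A (hp i).pos (hω i) hΨ (ζ := (ζ i)⁻¹)
  have G3 := fun i => g3 A (hp i).pos (hω i) (a := b * n i) (ζ := ζ i) fun y hy => by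
    rw [pow_mul]
    induction n i with
    | zero => simp
    | succ j ih => rw [pow_succ, pow_mul, hΨ _ (by rw [pow_right_comm, hy]), ih]
  simp only [pow_mul p] at G3
  generalize p ^ b = a at *
  obtain ⟨c, hc⟩ : Odd a := (Nat.odd_pow_iff two_ne_zero).1 (hq ▸ A.odd)
  have a0 : (a : E) ≠ 0 := Nat.cast_ne_zero.2 (by omega)
  have s := fun i => (hp i).s (a := a) (e := 1) (by rw [hq, pow_one])
  have aa : ∀ y : E, (y ^ a) ^ a = y ^ q := fun y => by rw [← pow_mul, ← sq, hq]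
  have n1 : ∀ i, ζ i ≠ 1 → ∀ j, (ζ i ^ q ^ j) ^ a ≠ 1 := fun i h j e =>
    (hp i).ne1 h (j + 1) (by rw [pow_succ, pow_mul, ← aa, e, one_pow])
  have n0 := fun i => ne0 A (hp i)
  refine blocks A hp hω (e := 1) (by rw [hq, pow_one]) _ (fun i => ?_) (fun i m => ?_) hZ
  · by_cases h1 : ζ i = 1
    · rw [bv_one A (hp i) (hω i) h1 (by simp [a0]), bv_one A (s i) (hω i) (by simp [h1])
        (by simp [a0]), one_mul]
    have r := rot (hp i).fix fun y => y ^ a / (y ^ a - 1)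
    rw [bv, bv, mul_mul_mul_comm, neg_mul_neg, ← inv_pow, G2 i (by
      rw [inv_pow, (hp i).one, inv_one]), g1 A (hp i).pos (hω i) (hp i).one h1, ← prod_mul_distrib,
      prod_congr rfl (g := fun j => (q : E)⁻¹ * ((ζ i ^ q ^ j) ^ (q / 2)) ^ l *
        ((ζ i ^ q ^ j) ^ a / ((ζ i ^ q ^ j) ^ a - 1) /
          (((ζ i ^ q ^ j) ^ q) ^ a / (((ζ i ^ q ^ j) ^ q) ^ a - 1)))) fun j _ => ?_,
      prod_mul_distrib, prod_div_distrib, r, div_self (prod_ne_zero_iff.2 fun j _ => div_ne_zero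
        (by simp [n0]) (sub_ne_zero.2 (n1 i h1 j))), prod_mul_distrib, prod_pow _ l, pexp A.odd]
    · rcases mul_self_eq_one_iff.1 (eps A (hp i)) with e | e <;>
        simp [e, hl.neg_one_pow, A.odd.pos.ne']
    have b1 := n1 i h1 j
    have b2 := n1 i h1 (j + 1)
    have b3 := (hp i).ne1 h1 (j + 1)
    have b0 := pow_ne_zero (q ^ j) (n0 i)
    rw [pow_succ, pow_mul] at b2 b3
    rw [inv_pow, inv_pow, pow_right_comm _ a]
    generalize ζ i ^ q ^ j = y at *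
    have b4 : (y ^ a) ^ ((a + 1) / 2 * l) = (y ^ (q / 2)) ^ l * y ^ ((a + 1) / 2 * l) := by
      rw [← pow_mul, ← pow_mul, ← pow_add, ← hq, hc, show (2 * c + 1 + 1) / 2 = c + 1 by omega,
        show (2 * c + 1) ^ 2 / 2 = 2 * c * (c + 1) by
          rw [show (2 * c + 1) ^ 2 = 1 + 2 * (2 * c * (c + 1)) by ring]; omega]
      congr 1
      ring
    rw [inv_pow, inv_pow, aa, geom_sum_eq b1, geom_sum_eq (inv_ne_one.2 b3), aa, inv_pow, inv_inv, b4,
      ← hq, Nat.cast_pow, hq]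
    have := sub_ne_zero.2 b1
    have := sub_ne_zero.2 b2
    have := sub_ne_zero.2 b3
    have := sub_ne_zero.2 b3.symm
    field_simp
    ring
  by_cases h1 : ζ i = 1
  · exact bv_one A (hp i) (hω i) h1 (by simp [a0])
  obtain ⟨j, -, e⟩ := mem_orb.1 m
  obtain ⟨d, hd⟩ := Nat.exists_eq_add_one_of_ne_zero (hp i).pos.ne'
  have e1 : ζ i ^ a ^ (2 * (j + d) + 1) = (ζ i)⁻¹ := by
    rw [pow_succ, pow_mul a, hq, pow_add, pow_mul, pow_mul, ← e, inv_pow, inv_pow,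
      pow_right_comm _ (q ^ d), aa, ← pow_mul, ← pow_succ', ← hd, (hp i).fix]
  obtain ⟨k, hk⟩ := (hp i).dvd (k := 2 * (j + d) + 1) (by
    rw [← hq, pow_right_comm a, sq, pow_mul, e1, inv_pow, e1, inv_inv])
  obtain ⟨od, k, rfl⟩ := Nat.odd_mul.1 (hk ▸ odd_two_mul_add_one _)
  rw [hk, mul_add, mul_one, mul_left_comm, pow_add, pow_mul a, hq, pow_mul, (hp i).fix'] at e1
  obtain ⟨c', hc'⟩ := (hc ▸ odd_two_mul_add_one c : Odd a).pow (n := n i)
  have z1 : ζ i ^ (a ^ n i + 1) = 1 := by rw [pow_succ, e1, inv_mul_cancel₀ (n0 i)]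
  have r1 := rot (hp i).fix fun y => y - 1
  have r2 := congrArg (fun Z => (Z.map fun y => y - 1).prod)
    ((orb_s a).trans (e ▸ orb_rot (hp i).fix j))
  simp only [Multiset.map_map, orb_prod, Function.comp] at r2
  have r3 : ∏ j ∈ range (n i), ((ζ i ^ q ^ j) ^ ((a + 1) / 2 * l))⁻¹ = ζ i ^ (c' + 1) := by
    have s1 := geom_sum_mul_add (2 * c) (n i)
    have s2 := geom_sum_mul_add (2 * c * (a + 1)) (n i)
    have c0 : 0 < c := by
      by_contra h
      have := A.one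
      rw [← hq, hc, show c = 0 by omega] at this
      simp at this
    rw [show 2 * c * (a + 1) + 1 = q by rw [← hq, hc]; ring] at s2
    rw [← hc] at s1
    have s3 : Odd (∑ i ∈ range (n i), a ^ i) := by
      rw [odd_sum_iff_odd_card_odd, filter_true_of_mem fun _ _ => Odd.pow ⟨c, hc⟩, card_range]
      exact od
    have s4 : (∑ i ∈ range (n i), q ^ i) * (c + 1) = (c' + 1) * ∑ i ∈ range (n i), a ^ i := by
      refine Nat.eq_of_mul_eq_mul_left (show 0 < 4 * c by omega) ?_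
      rw [show q ^ n i = (2 * c' + 1) ^ 2 by rw [← hq, pow_right_comm, hc'],
        show a + 1 = 2 * c + 2 by omega] at s2
      rw [hc'] at s1
      zify at s1 s2 ⊢
      linear_combination s2 - 2 * (c' + 1) * s1
    have s5 : ζ i ^ (c' + 1) * ζ i ^ (c' + 1) = 1 := by
      rw [← pow_add, ← z1, hc']
      congr 1
      ring
    rw [prod_inv_distrib, prod_pow, prod_pow_eq_pow_sum, ← pow_mul,
      show (a + 1) / 2 = c + 1 by omega, ← mul_assoc, s4, mul_assoc, pow_mul]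
    rcases mul_self_eq_one_iff.1 s5 with e | e <;> simp [e, (s3.mul hl).neg_one_pow]
  rw [bv, G3 i (by rw [pow_right_comm, hq]) z1 h1, prod_mul_distrib, prod_mul_distrib, r3, prod_const,
    prod_congr rfl (g := fun j => -1 * (((ζ i ^ q ^ j) ^ q - 1) / (((ζ i ^ q ^ j) ^ a)⁻¹ - 1)))
      fun j _ => ?_, prod_mul_distrib, prod_div_distrib, r1, r2,
    div_self (prod_ne_zero_iff.2 fun j _ => sub_ne_zero.2 ((hp i).ne1 h1 j)),
    show (a ^ n i + 1) / 2 = c' + 1 by omega]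
  · have s5 := z1
    rw [hc', show 2 * c' + 1 + 1 = c' + 1 + (c' + 1) by ring, pow_add] at s5
    rw [prod_const, card_range, od.neg_one_pow, Nat.cast_pow, inv_pow]
    linear_combination (((a : E) ^ n i)⁻¹ * a ^ n i) * s5 + inv_mul_cancel₀ (pow_ne_zero (n i) a0)
  · have b1 := n1 i h1 j
    have b0 := pow_ne_zero a (pow_ne_zero (q ^ j) (n0 i))
    rw [geom_sum_eq b1, aa]
    have := sub_ne_zero.2 b1
    have := sub_ne_zero.2 b1.symm
    field_simp
    ring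

end Pool.Agent.EP
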