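import Mathlib

/-! Gauss sums written with a generator. -/

namespace Pool.Agent.EP

open Finset Polynomial
open scoped Classical

variable {κ E : Type} [Field κ] [Field E]

/-- The trace. -/
def tr (q d : ℕ) (x : κ) : κ := ∑ i ∈ range d, x ^ q ^ i

/-- The Gauss sum. -/
def gs (q : ℕ) (Ψ : κ → E) (ω : κ) (d : ℕ) (ζ : E) : E :=
  ∑ j ∈ range (q ^ d - 1), ζ⁻¹ ^ j * Ψ (tr q d (ω ^ j))

/-- A nontrivial additive character of the field with `q` elements. -/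
structure AC (p q : ℕ) (Ψ : κ → E) : Prop where
  pw : ∃ f, q = p ^ f
  one : 1 < q
  odd : Odd q
  zero : Ψ 0 = 1
  add : ∀ a b, a ^ q = a → b ^ q = b → Ψ (a + b) = Ψ a * Ψ b
  ne : ∃ a, a ^ q = a ∧ Ψ a ≠ 1

theorem pow_fix {M : Type} [Monoid M] {q : ℕ} {a : M} (h : a ^ q = a) (i : ℕ) : a ^ q ^ i = a := by
  induction i with
  | zero => simp
  | succ i ih => rw [pow_succ, pow_mul, ih, h]

theorem half {R : Type} [CommRing R] [IsDomain R] {ω : R} {N : ℕ} (h : IsPrimitiveRoot ω N)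
    (h0 : 0 < N) (e : Even N) : ω ^ (N / 2) = -1 :=
  (h.pow h0 (Nat.div_mul_cancel e.two_dvd).symm).eq_neg_one_of_two_right

variable {p q d : ℕ} [Fact p.Prime] [CharP κ p] {Ψ : κ → E} {ω : κ}

theorem tr_pow (a : ℕ) (x : κ) : tr q d (x ^ p ^ a) = tr q d x ^ p ^ a := by
  simp only [tr, sum_pow_char_pow, ← pow_mul, mul_comm]

variable (A : AC p q Ψ) (hd : 0 < d) (hω : IsPrimitiveRoot ω (q ^ d - 1))

include A hd

omit [Fact p.Prime] [CharP κ p] in
theorem npos : 0 < q ^ d - 1 := Nat.sub_pos_of_lt (Nat.one_lt_pow hd.ne' A.one)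

omit hd in
theorem tr_fix {x : κ} (h : x ^ q ^ d = x) : tr q d x ^ q = tr q d x := by
  obtain ⟨f, rfl⟩ := A.pw
  have := (sum_range_succ (fun i => x ^ (p ^ f) ^ i) d).symm.trans (sum_range_succ' _ d)
  rw [h, pow_zero, pow_one, add_left_inj] at this
  rw [tr, sum_pow_char_pow]
  simpa only [pow_succ, pow_mul] using this.symm

include hω

theorem exF : ∃ (F : Subfield κ) (_ : Fintype F) (γ : F) (ψ : AddChar F E),
    Fintype.card F = q ^ d ∧ IsPrimitiveRoot γ (q ^ d - 1) ∧ (∀ x, ψ x = Ψ (tr q d x.1)) ∧ ψ ≠ 1 ∧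
    (∀ x : F, x.1 ^ q ^ d = x) ∧ (∀ x : F, x ≠ 0 → ∃ j, x = γ ^ j) ∧
    (∀ ζ : E, ζ ^ (q ^ d - 1) = 1 → ∃ χ : MulChar F E, χ γ = ζ⁻¹) ∧
    ∀ (χ : MulChar F E) (ζ : E), χ γ = ζ⁻¹ → gaussSum χ ψ = gs q Ψ ω d ζ := by
  have n0 := npos A hd
  have : NeZero (q ^ d - 1) := ⟨n0.ne'⟩
  have e1 : q ^ d = q ^ d - 1 + 1 := by omega
  obtain ⟨f, hf⟩ := A.pw
  let F := RingHom.eqLocusField (iterateFrobenius κ p (f * d)) (RingHom.id κ)
  have m : ∀ x, x ∈ F ↔ x ^ q ^ d = x := fun x => by rw [hf, ← pow_mul]; rfl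
  let γ : F := ⟨ω, (m ω).2 (by rw [e1, pow_succ, hω.pow_eq_one, one_mul])⟩
  have hγ : IsPrimitiveRoot γ (q ^ d - 1) := hω.of_map_of_injective F.subtype.injective
  have g0 := hγ.ne_zero n0.ne'
  have gen : ∀ x : F, x ≠ 0 → ∃ j < q ^ d - 1, γ ^ j = x := fun x hx =>
    hγ.eq_pow_of_pow_eq_one (mul_right_cancel₀ hx (by
      rw [← pow_succ, ← e1, one_mul]; exact Subtype.ext ((m _).1 x.2)))
  let g : Option (Fin (q ^ d - 1)) → F := fun o => o.elim 0 fun j => γ ^ j.1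
  have bij : Function.Bijective g := ⟨by
    rintro (_ | i) (_ | j) h
    exacts [rfl, (pow_ne_zero _ g0 h.symm).elim, (pow_ne_zero _ g0 h).elim,
      congrArg _ (Fin.ext (hγ.pow_inj i.2 j.2 h))], fun x => by
    by_cases h : x = 0
    · exact ⟨none, h.symm⟩
    · obtain ⟨j, a, b⟩ := gen x h
      exact ⟨some ⟨j, a⟩, b⟩⟩
  let _ := Fintype.ofBijective g bij
  have c : Fintype.card F = q ^ d := by
    rw [← Fintype.card_of_bijective bij, Fintype.card_option, Fintype.card_fin, ← e1]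
  have ta : ∀ x y : κ, tr q d (x + y) = tr q d x + tr q d y := fun x y => by
    simp only [tr, hf, ← pow_mul, add_pow_char_pow, sum_add_distrib]
  have t0 : Ψ (tr q d 0) = 1 := by
    simp [tr, zero_pow (pow_pos (zero_lt_one.trans A.one) _).ne', A.zero]
  have t1 : ∀ x y : F, Ψ (tr q d (x + y).1) = Ψ (tr q d x) * Ψ (tr q d y) := fun x y => by
    rw [← A.add _ _ (tr_fix A ((m _).1 x.2)) (tr_fix A ((m _).1 y.2)), ← ta]; rfl
  refine ⟨F, _, γ, ⟨fun x => Ψ (tr q d x.1), t0, t1⟩, c, hγ,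
    fun _ => rfl, fun h => ?_, fun x => (m _).1 x.2,
    fun x hx => (gen x hx).imp fun _ h => h.2.symm, fun ζ hζ => ?_, fun χ ζ h => ?_⟩
  · obtain ⟨a, a1, a2⟩ := A.ne
    have : (∑ i ∈ range d, X ^ q ^ i : κ[X]) = 0 := by
      refine eq_zero_of_natDegree_lt_card_of_eval_eq_zero _ F.subtype.injective (fun x => ?_) ?_
      · simp only [eval_finsetSum, eval_pow, eval_X]
        by_contra h0
        have b := tr_fix A ((m _).1 x.2)
        have b2 : (a / tr q d x.1) ^ q = a / tr q d x.1 := by rw [div_pow, a1, b]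
        have := DFunLike.congr_fun h (⟨_, (m _).2 (pow_fix b2 d)⟩ * x)
        refine a2 (Eq.trans (congrArg Ψ ?_) this)
        change _ = tr q d (_ * x.1)
        simp only [tr, mul_pow] at b2 ⊢
        simp only [pow_fix b2, ← mul_sum]
        exact (div_mul_cancel₀ _ h0).symm
      · refine (natDegree_sum_le_of_forall_le (n := q ^ d - 1) _ _ fun i hi => ?_).trans_lt
          (by omega)
        have := Nat.pow_lt_pow_right A.one (mem_range.1 hi)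
        rw [natDegree_X_pow]
        omega
    have := congrArg (coeff · 1) this
    simp only [finsetSum_coeff, coeff_X_pow, coeff_zero] at this
    rw [sum_eq_single_of_mem 0 (mem_range.2 hd) fun i _ h =>
      if_neg (Nat.one_lt_pow h A.one).ne] at this
    simp at this
  · have z0 : ζ⁻¹ ≠ 0 := inv_ne_zero fun e => by simp [e, n0.ne'] at hζ
    refine ⟨MulChar.ofRootOfUnity (ζ := Units.mk0 _ z0) (g := Units.mk0 γ g0) (by
      rw [mem_rootsOfUnity', Fintype.card_units, c]; simp [hζ]) fun x => ?_,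
      MulChar.ofRootOfUnity_spec _ _⟩
    obtain ⟨j, -, b⟩ := gen x x.ne_zero
    exact ⟨j, Units.ext (by simpa using b)⟩
  · rw [gaussSum, ← bij.sum_comp, Fintype.sum_option, gs, sum_range]
    simp only [g, Option.elim, MulChar.map_zero, zero_mul, zero_add, map_pow, h]
    rfl

theorem g0 : gs q Ψ ω d 1 = -1 := by
  obtain ⟨F, _, γ, ψ, -, g, -, n, -, -, -, e⟩ := exF A hd hω
  rw [← e 1 1 (by rw [MulChar.one_apply (g.isUnit (npos A hd).ne'), inv_one]), gaussSum_one_left n]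

theorem g1 {ζ : E} (h : ζ ^ (q ^ d - 1) = 1) (h1 : ζ ≠ 1) :
    gs q Ψ ω d ζ * gs q Ψ ω d ζ⁻¹ = ζ ^ ((q ^ d - 1) / 2) * q ^ d := by
  obtain ⟨F, _, γ, ψ, c, g, -, n, -, -, ex, e⟩ := exF A hd hω
  obtain ⟨χ, hχ⟩ := ex ζ h
  have i : χ⁻¹ γ = ζ⁻¹⁻¹ := by rw [MulChar.inv_apply_eq_inv', hχ]
  rw [← e χ ζ hχ, ← e χ⁻¹ _ i, ← mul_gaussSum_inv_eq_gaussSum χ⁻¹, mul_left_comm,
    gaussSum_mul_gaussSum_eq_card (fun a => h1 (inv_eq_one.1 (by
      rw [← hχ, a, MulChar.one_apply (g.isUnit (npos A hd).ne')])))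
      (AddChar.IsPrimitive.of_ne_one n), c, ← half g (npos A hd) (A.odd.pow.tsub_odd odd_one),
    map_pow, i, inv_inv, Nat.cast_pow]

theorem g2 {a : ℕ} (hΨ : ∀ x, x ^ q = x → Ψ (x ^ p ^ a) = Ψ x) {ζ : E} (h : ζ ^ (q ^ d - 1) = 1) :
    gs q Ψ ω d (ζ ^ p ^ a) = gs q Ψ ω d ζ := by
  obtain ⟨F, _, γ, ψ, -, -, t, -, m, -, ex, e⟩ := exF A hd hω
  obtain ⟨χ, hχ⟩ := ex ζ h
  have p0 : p ^ a ≠ 0 := pow_ne_zero _ (Fact.out : p.Prime).ne_zero
  rw [← e χ ζ hχ, ← e (χ ^ p ^ a) _ (by rw [MulChar.pow_apply' _ p0, hχ, inv_pow]), gaussSum,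
    gaussSum, ← (Finite.injective_iff_bijective.1 (iterateFrobenius F p a).injective).sum_comp
      fun x => χ x * ψ x]
  refine sum_congr rfl fun x _ => ?_
  rw [MulChar.pow_apply' _ p0, iterateFrobenius_def, map_pow, t, t, SubmonoidClass.coe_pow, tr_pow,
    hΨ _ (tr_fix A (m x))]

theorem g3 [CharZero E] {a : ℕ} (hΨ : ∀ x, x ^ q = x → Ψ (x ^ p ^ a) = Ψ x)
    (ha : (p ^ a) ^ 2 = q ^ d) {ζ : E} (h : ζ ^ (p ^ a + 1) = 1) (h1 : ζ ≠ 1) :
    gs q Ψ ω d ζ = (p ^ a : ℕ) * ζ ^ ((p ^ a + 1) / 2) := by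
  have n0 := npos A hd
  have G1 := fun h => g1 A hd hω (ζ := ζ) h h1
  have G2 := fun h => g2 A hd hω hΨ (ζ := ζ) h
  obtain ⟨F, _, γ, ψ, -, g, t, n, m, gen, ex, e⟩ := exF A hd hω
  have tψ : ∀ x, ψ (x ^ p ^ a) = ψ x := fun x => by
    rw [t, t, SubmonoidClass.coe_pow, tr_pow, hΨ _ (tr_fix A (m x))]
  let F₀ := RingHom.eqLocusField (iterateFrobenius F p a) (RingHom.id F)
  have m0 : ∀ x, x ∈ F₀ ↔ x ^ p ^ a = x := fun x => Iff.rfl
  have fa : ∀ x y : F, (x + y) ^ p ^ a = x ^ p ^ a + y ^ p ^ a := fun x y => add_pow_char_pow ..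
  have od : Odd (p ^ a) := (Nat.odd_pow_iff two_ne_zero).1 (ha ▸ A.odd.pow)
  have ff : ∀ x : F, (x ^ p ^ a) ^ p ^ a = x := fun x => Subtype.ext (by
    rw [← pow_mul, ← sq, ha]; exact m x)
  obtain ⟨r, hr⟩ := id od
  generalize p ^ a = s at *
  have eN : q ^ d - 1 = 2 * r * (s + 1) := by
    rw [← ha, hr]; exact Nat.sub_eq_of_eq_add (by ring)
  have zN : ζ ^ (q ^ d - 1) = 1 := by rw [eN, pow_mul', h, one_pow]
  have z0 : ζ ≠ 0 := fun e => by simp [e] at h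
  have zi : ζ ^ s = ζ⁻¹ := eq_inv_of_mul_eq_one_left (by rwa [← pow_succ])
  have e2 : (s + 1) / 2 = r + 1 := by omega
  have z2 : ζ ^ (r + 1) * ζ ^ (r + 1) = 1 := by rw [← pow_add, ← h, hr]; congr 1; ring
  obtain ⟨χ, hχ⟩ := ex ζ zN
  have c1 : χ ≠ 1 := fun a => h1 (inv_eq_one.1 (by
    rw [← hχ, a, MulChar.one_apply (g.isUnit n0.ne')]))
  have r0 : 0 < 2 * r := Nat.pos_of_mul_pos_right (eN ▸ n0)
  have c0 : ∀ x : F₀, χ x = if x = 0 then 0 else 1 := fun x => by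
    split_ifs with hx
    · simpa [hx] using χ.map_zero
    have x0 : x.1 ≠ 0 := fun a => hx (Subtype.ext a)
    obtain ⟨j, hj⟩ := gen x x0
    have : (γ ^ j) ^ (2 * r) = 1 := mul_right_cancel₀ x0 (by
      rw [← hj, ← pow_succ, ← hr, (m0 _).1 x.2, one_mul])
    rw [← pow_mul, g.pow_eq_one_iff_dvd, eN, mul_comm j] at this
    obtain ⟨i, rfl⟩ := Nat.dvd_of_mul_dvd_mul_left r0 this
    rw [hj, map_pow, hχ, pow_mul, inv_pow, h, inv_one, one_pow]
  have tw : (2 : F) ≠ 0 := fun a => by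
    have := half g n0 (A.odd.pow.tsub_odd odd_one)
    rw [neg_eq_of_add_eq_zero_left (one_add_one_eq_two.trans a), g.pow_eq_one_iff_dvd] at this
    obtain ⟨z, hz⟩ := A.odd.pow (n := d)
    have := Nat.le_of_dvd (by omega) this
    omega
  have t2 : (2 : F)⁻¹ ^ s = 2⁻¹ := by rw [inv_pow, (m0 _).1 (ofNat_mem F₀ 2)]
  have k0 : ∀ y : F, y ^ s = -y → ψ y = 1 := fun y hy => by
    have := tψ (2⁻¹ * y)
    rw [mul_pow, t2, hy, mul_neg] at this
    rw [← one_mul y, ← mul_inv_cancel₀ tw, mul_assoc, two_mul, ψ.map_add_eq_mul,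
      ← AddChar.map_zero_eq_one ψ, ← neg_add_cancel (2⁻¹ * y), ψ.map_add_eq_mul, this]
  have k1 : ∀ y : F, (2⁻¹ * (y - y ^ s)) ^ s = -(2⁻¹ * (y - y ^ s)) := fun y => by
    rw [mul_pow, t2, sub_eq_add_neg, fa, od.neg_pow, ff]; ring
  have k2 : ∀ y : F, 2⁻¹ * (y + y ^ s) ∈ F₀ := fun y => by rw [m0, mul_pow, t2, fa, ff, add_comm]
  have k3 : ∀ y : F, y = 2⁻¹ * (y + y ^ s) + 2⁻¹ * (y - y ^ s) := fun y => by field_simp; ring
  have inn : ∀ x : F, ∑ b : F₀, ψ (b * x) = if x ^ s = -x then (Fintype.card F₀ : E) else 0 := by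
    intro x
    have := AddChar.sum_eq_ite ((ψ.mulShift x).compAddMonoidHom F₀.subtype.toAddMonoidHom)
    refine Eq.trans (sum_congr rfl fun b _ => by rw [mul_comm]; rfl) (this.trans (if_congr
      ⟨fun a => by_contra fun b => n (AddChar.ext _ _ fun y => ?_), fun a => AddChar.ext _ _
        fun b => k0 (x * b) (by rw [mul_pow, a, (m0 _).1 b.2, neg_mul])⟩ rfl rfl))
    have b0 : 2⁻¹ * (x + x ^ s) ≠ 0 := mul_ne_zero (inv_ne_zero tw) fun c =>
      b (eq_neg_of_add_eq_zero_right c)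
    have b1 := div_mem (k2 y) (k2 x)
    have b2 : ψ (x * (_ / _)) = 1 := DFunLike.congr_fun a ⟨_, b1⟩
    have b3 : ∀ z u v : F, u ≠ 0 → (u + v) * (z / u) = z + v * (z / u) := fun z u v hu => by
      field_simp
    nth_rw 1 [k3 x] at b2
    rw [b3 _ _ _ b0, ψ.map_add_eq_mul, k0 (_ * (_ / _)) (by
      rw [mul_pow, k1, (m0 _).1 b1, neg_mul]), mul_one] at b2
    rw [k3 y, ψ.map_add_eq_mul, b2, k0 _ (k1 y), mul_one, AddChar.one_apply]
  have d1 : (γ ^ (r + 1)) ^ s = -γ ^ (r + 1) := by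
    rw [hr, pow_succ, ← pow_mul, show (r + 1) * (2 * r) = (q ^ d - 1) / 2 by
      rw [eN, hr]; exact (Nat.div_eq_of_eq_mul_left two_pos (by ring)).symm,
      half g n0 (A.odd.pow.tsub_odd odd_one), neg_one_mul]
  have d0 := pow_ne_zero (r + 1) (g.ne_zero n0.ne')
  have s0 : ∑ b : F₀, χ b = (Fintype.card F₀ : E) - 1 := by
    rw [sum_congr rfl fun b _ => c0 b, sum_ite, filter_ne', sum_const_zero, zero_add, sum_const,
      card_erase_of_mem (mem_univ _), card_univ, nsmul_one, Nat.cast_pred Fintype.card_pos]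
  have s1 : ∑ b : F₀, χ b * gaussSum χ ψ = ∑ b : F₀, gaussSum χ (ψ.mulShift b) :=
    sum_congr rfl fun b _ => by
      by_cases hb : b = 0
      · simp [hb, gaussSum_one_right c1, χ.map_zero]
      · have := gaussSum_mulShift χ ψ (Units.mk0 b.1 fun a => hb (Subtype.ext a))
        rw [Units.val_mk0, c0, if_neg hb, one_mul] at this
        rw [c0, if_neg hb, one_mul, this]
  have s2 : ∑ x ∈ univ.filter fun x : F => x ^ s = -x, χ x = ∑ b : F₀, χ (γ ^ (r + 1) * b) :=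
    (sum_bij (fun b _ => γ ^ (r + 1) * b.1) (fun b _ => by
      rw [mem_filter_univ, mul_pow, d1, (m0 _).1 b.2, neg_mul])
      (fun b _ c _ a => Subtype.ext (mul_left_cancel₀ d0 a)) (fun x hx =>
        ⟨⟨x / γ ^ (r + 1), by rw [m0, div_pow, d1, (mem_filter.1 hx).2, neg_div_neg_eq]⟩,
          mem_univ _, mul_div_cancel₀ _ d0⟩) fun _ _ => rfl).symm
  have s3 : gaussSum χ ψ = Fintype.card F₀ * ζ ^ (r + 1) := by
    refine mul_left_cancel₀ (a := (Fintype.card F₀ : E) - 1) (sub_ne_zero.2 (by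
      exact_mod_cast Fintype.one_lt_card.ne')) ?_
    rw [← s0, sum_mul, s1]
    simp only [gaussSum, AddChar.mulShift_apply]
    rw [sum_comm]
    simp only [← mul_sum, inn, mul_ite, mul_zero]
    rw [← sum_filter, ← sum_mul, s2]
    simp only [map_mul, ← mul_sum, map_pow, hχ, inv_pow, inv_eq_of_mul_eq_one_left z2]
    ring
  have s4 := G1 zN
  rw [← zi, G2 zN, ← e χ ζ hχ, s3, eN, mul_assoc 2 r, Nat.mul_div_cancel_left _ two_pos, pow_mul',
    h, one_pow, one_mul, mul_mul_mul_comm, z2, mul_one, ← Nat.cast_pow, ← ha, ← sq] at s4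
  rw [← e χ ζ hχ, s3, e2, Nat.pow_left_injective two_ne_zero (by exact_mod_cast s4 :
    Fintype.card F₀ ^ 2 = s ^ 2)]

end Pool.Agent.EP
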