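import Mathlib

/-! Determinants on quotients, perfect pairings, and eigenvalues. -/

namespace Pool.Agent.EP

open Module Polynomial

variable {E V V' : Type} [Field E] [AddCommGroup V] [Module E V] [FiniteDimensional E V]
  [AddCommGroup V'] [Module E V'] [FiniteDimensional E V']

theorem pdet (P : V →ₗ[E] V' →ₗ[E] E) (hl : ∀ x, (∀ y, P x y = 0) → x = 0)
    (hr : ∀ y, (∀ x, P x y = 0) → y = 0) {F G : End E V} {F' G' : End E V'}
    (h : ∀ x y, P (F x) (F' y) = P (G x) (G' y)) :
    LinearMap.det F * LinearMap.det F' = LinearMap.det G * LinearMap.det G' := by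
  have i1 : Function.Injective P :=
    (injective_iff_map_eq_zero _).2 fun x hx => hl x fun y => by rw [hx]; rfl
  have i2 : Function.Injective P.flip :=
    (injective_iff_map_eq_zero _).2 fun y hy => hr y fun x => LinearMap.congr_fun hy x
  have e : finrank E V = finrank E (Dual E V') := le_antisymm
    (LinearMap.finrank_le_finrank_of_injective i1) (by
      have := LinearMap.finrank_le_finrank_of_injective i2
      rwa [Subspace.dual_finrank_eq, ← Subspace.dual_finrank_eq (V := V')] at this)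
  let φ := LinearMap.linearEquivOfInjective P i1 e
  have k : ∀ (A : End E V) (A' : End E V'), LinearMap.det A * LinearMap.det A' = LinearMap.det
      ((φ.symm.toLinearMap ∘ₗ A'.dualMap ∘ₗ φ.symm.symm.toLinearMap) ∘ₗ A) := fun A A' => by
    rw [LinearMap.det_comp, LinearMap.det_conj, LinearMap.det_dualMap, mul_comm]
  rw [k, k]
  congr 1
  ext x
  exact congrArg φ.symm (LinearMap.ext fun y => h x y)

theorem sdet (P : V →ₗ[E] V →ₗ[E] E) (hr : ∀ y, (∀ x, P x y = 0) → y = 0) {A C : End E V}
    (h : ∀ x y, P (A y) x = P x (C y)) : LinearMap.det A = LinearMap.det C := by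
  classical
  let b := Module.finBasis E V
  have h0 : (LinearMap.BilinForm.toMatrix b P).det ≠ 0 :=
    (LinearMap.separatingRight_iff_det_ne_zero b).1 hr
  have e : ((LinearMap.toMatrix b b A).transpose * LinearMap.BilinForm.toMatrix b P).transpose =
      LinearMap.BilinForm.toMatrix b P * LinearMap.toMatrix b b C := by
    rw [← LinearMap.BilinForm.toMatrix_compRight, ← LinearMap.BilinForm.toMatrix_compLeft]
    ext i j
    simp [h (b i) (b j)]
  have := congrArg Matrix.det e
  rw [Matrix.det_transpose, Matrix.det_mul, Matrix.det_mul, Matrix.det_transpose,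
    LinearMap.det_toMatrix, LinearMap.det_toMatrix, mul_comm] at this
  exact mul_left_cancel₀ h0 this

/-- `f` is induced by `F`. -/
def QD (S : Submodule E V) (F : End E V) (f : End E (V ⧸ S)) : Prop :=
  ∀ x, f (S.mkQ x) = S.mkQ (F x)

section

omit [FiniteDimensional E V]

variable {S : Submodule E V} {F G : End E V} {f g : End E (V ⧸ S)}

theorem exQD (h : ∀ x ∈ S, F x ∈ S) : ∃ f, QD S F f := ⟨S.mapQ S F h, fun _ => rfl⟩

theorem QD.mul (h : QD S F f) (h' : QD S G g) : QD S (F * G) (f * g) := fun x => by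
  rw [End.mul_apply, h', h, End.mul_apply]

theorem QD.smul (h : QD S F f) (c : E) : QD S (c • F) (c • f) := fun x => by
  rw [LinearMap.smul_apply, h, LinearMap.smul_apply, map_smul]

theorem QD.neg (h : QD S F f) : QD S (-F) (-f) := fun x => by
  rw [LinearMap.neg_apply, h, LinearMap.neg_apply, map_neg]

theorem QD.one : QD S 1 1 := fun _ => rfl

theorem QD.uniq (h : QD S F f) (h' : QD S F g) : f = g := LinearMap.ext fun x => by
  obtain ⟨x, rfl⟩ := S.mkQ_surjective x
  rw [h, h']

theorem QD.mem (h : QD S F f) {x : V} (hx : x ∈ S) : F x ∈ S := by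
  rw [← Submodule.Quotient.mk_eq_zero, ← Submodule.mkQ_apply, ← h, Submodule.mkQ_apply,
    (Submodule.Quotient.mk_eq_zero S).2 hx, map_zero]

end

theorem QD.det {S : Submodule E V} {F : End E V} {f : End E (V ⧸ S)} (h : QD S F f) {c : E}
    (hc : ∀ x ∈ S, F x = c • x) : LinearMap.det F = c ^ finrank E S * LinearMap.det f := by
  have m : S ≤ S.comap F := fun x hx => h.mem hx
  rw [LinearMap.det_eq_det_mul_det S F m, h.uniq (g := S.mapQ S F m) fun _ => rfl,
    show F.restrict m = c • LinearMap.id from LinearMap.ext fun x => Subtype.ext (hc x x.2),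
    LinearMap.det_smul, LinearMap.det_id, mul_one]

omit [FiniteDimensional E V] [FiniteDimensional E V'] in
theorem exQ (P : V →ₗ[E] V' →ₗ[E] E) {S : Submodule E V} {S' : Submodule E V'}
    (hl : ∀ x, x ∈ S ↔ ∀ y, P x y = 0) (hr : ∀ y, y ∈ S' ↔ ∀ x, P x y = 0) :
    ∃ γ : (V ⧸ S) →ₗ[E] (V' ⧸ S') →ₗ[E] E, (∀ x y, γ (S.mkQ x) (S'.mkQ y) = P x y) ∧
      (∀ x, (∀ y, γ x y = 0) → x = 0) ∧ ∀ y, (∀ x, γ x y = 0) → y = 0 := by
  refine ⟨P.liftQ₂ S S' (fun x hx => LinearMap.ext ((hl x).1 hx))
    (fun y hy => LinearMap.ext ((hr y).1 hy)), fun _ _ => rfl, fun x hx => ?_, fun y hy => ?_⟩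
  · obtain ⟨x, rfl⟩ := S.mkQ_surjective x
    exact (Submodule.Quotient.mk_eq_zero S).2 ((hl x).2 fun y => hx (S'.mkQ y))
  · obtain ⟨y, rfl⟩ := S'.mkQ_surjective y
    exact (Submodule.Quotient.mk_eq_zero S').2 ((hr y).2 fun x => hy (S.mkQ x))

theorem qpdet (P : V →ₗ[E] V' →ₗ[E] E) {S : Submodule E V} {S' : Submodule E V'}
    (hl : ∀ x, x ∈ S ↔ ∀ y, P x y = 0) (hr : ∀ y, y ∈ S' ↔ ∀ x, P x y = 0) {F G : End E V}
    {F' G' : End E V'} {f g : End E (V ⧸ S)} {f' g' : End E (V' ⧸ S')} (hf : QD S F f)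
    (hf' : QD S' F' f') (hg : QD S G g) (hg' : QD S' G' g')
    (h : ∀ x y, P (F x) (F' y) = P (G x) (G' y)) :
    LinearMap.det f * LinearMap.det f' = LinearMap.det g * LinearMap.det g' := by
  obtain ⟨γ, g1, g2, g3⟩ := exQ P hl hr
  refine pdet γ g2 g3 fun x y => ?_
  obtain ⟨x, rfl⟩ := S.mkQ_surjective x
  obtain ⟨y, rfl⟩ := S'.mkQ_surjective y
  rw [hf, hf', hg, hg', g1, g1, h]

theorem qsdet (P : V →ₗ[E] V →ₗ[E] E) {S : Submodule E V}
    (hl : ∀ x, x ∈ S ↔ ∀ y, P x y = 0) (hr : ∀ y, y ∈ S ↔ ∀ x, P x y = 0) {A C : End E V}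
    {a c : End E (V ⧸ S)} (ha : QD S A a) (hc : QD S C c) (h : ∀ x y, P (A y) x = P x (C y)) :
    LinearMap.det a = LinearMap.det c := by
  obtain ⟨γ, g1, -, g3⟩ := exQ P hl hr
  refine sdet γ g3 fun x y => ?_
  obtain ⟨x, rfl⟩ := S.mkQ_surjective x
  obtain ⟨y, rfl⟩ := S.mkQ_surjective y
  rw [ha, hc, g1, g1, h]

/-- The determinant of an orthogonal map. -/
theorem orth (P : V →ₗ[E] V →ₗ[E] E) (sy : ∀ x y, P x y = P y x)
    (hl : ∀ x, (∀ y, P x y = 0) → x = 0) {M : End E V} (h : ∀ x y, P (M x) (M y) = P x y) :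
    LinearMap.det (-M) = (-1) ^ finrank E (LinearMap.ker (M - 1)) := by
  have sur : Function.Surjective M := LinearMap.injective_iff_surjective.1
    ((injective_iff_map_eq_zero _).2 fun x hx => hl x fun y => by rw [← h, hx, map_zero]; rfl)
  have k : ∀ x, x ∈ LinearMap.ker (M - 1) ↔ M x = x := fun x => sub_eq_zero
  obtain ⟨c, hc⟩ := exQD (S := LinearMap.ker (M - 1)) (F := -M) fun x hx => by
    rw [LinearMap.neg_apply, (k x).1 hx]
    exact neg_mem hx
  rw [hc.det (c := -1) fun x hx => by rw [LinearMap.neg_apply, (k x).1 hx, neg_one_smul],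
    ← qsdet (P ∘ₗ (M - 1)) (fun x => ⟨fun hx y => by
      rw [LinearMap.comp_apply, show (M - 1) x = 0 from hx, map_zero]; rfl, hl _⟩)
      (fun y => ⟨fun hy x => ?_, fun hy => hl _ fun x => ?_⟩) QD.one hc fun x y => ?_, map_one,
    mul_one]
  · rw [LinearMap.comp_apply, LinearMap.sub_apply, map_sub, LinearMap.sub_apply, End.one_apply,
      ← h x y, (k y).1 hy, sub_self]
  · obtain ⟨x, rfl⟩ := sur x
    have := hy x
    simp only [LinearMap.comp_apply, LinearMap.sub_apply, map_sub, End.one_apply, h] at this ⊢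
    rw [sy y x, sy y (M x)]
    linear_combination -this
  · simp only [LinearMap.comp_apply, LinearMap.sub_apply, map_sub, End.one_apply, h,
      LinearMap.neg_apply, map_neg]
    rw [sy (M y) x, sy y x]
    ring

theorem QD.ker {S : Submodule E V} {F : End E V} {f : End E (V ⧸ S)} (h : QD S F f)
    (h0 : ∀ x ∈ S, F x = x → x = 0) :
    finrank E (LinearMap.ker (f - 1)) = finrank E (LinearMap.ker (F - 1)) := by
  have m : ∀ x ∈ S, (F - 1) x ∈ S := fun x hx => sub_mem (h.mem hx) hx
  have sur : Function.Surjective ((F - 1).restrict m) := LinearMap.injective_iff_surjective.1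
    ((injective_iff_map_eq_zero _).2 fun x hx => Subtype.ext
      (h0 x x.2 (sub_eq_zero.1 (congrArg Subtype.val hx))))
  refine (LinearEquiv.ofBijective (S.mkQ.restrict (p := LinearMap.ker (F - 1))
    (q := LinearMap.ker (f - 1)) fun x hx => ?_) ⟨?_, ?_⟩).finrank_eq.symm
  · rw [LinearMap.mem_ker, LinearMap.sub_apply, h, End.one_apply, ← map_sub]
    exact (congrArg _ hx).trans (map_zero _)
  · exact (injective_iff_map_eq_zero _).2 fun x hx => Subtype.ext (h0 x
      ((Submodule.Quotient.mk_eq_zero S).1 (congrArg Subtype.val hx)) (sub_eq_zero.1 x.2))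
  · rintro ⟨y, hy⟩
    obtain ⟨y, rfl⟩ := S.mkQ_surjective y
    rw [LinearMap.mem_ker, LinearMap.sub_apply, h, End.one_apply, ← map_sub] at hy
    obtain ⟨s, hs⟩ := sur ⟨_, (Submodule.Quotient.mk_eq_zero S).1 hy⟩
    refine ⟨⟨y - s, ?_⟩, Subtype.ext ?_⟩
    · rw [LinearMap.mem_ker, map_sub, sub_eq_zero]
      exact (congrArg Subtype.val hs).symm
    · exact (Submodule.Quotient.eq S).2 (by simp)

theorem mdet {R n : Type} [Field R] [Fintype n] [DecidableEq n] {A : Matrix n n R} {Z : Multiset R}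
    (h : A.charpoly = (Z.map fun z => X - C z).prod) {p : R[X]} (hp : p.Splits) :
    (aeval A p).det = (Z.map fun z => p.eval z).prod := by
  have c : Multiset.card Z = Fintype.card n := by
    rw [← natDegree_multiset_prod_X_sub_C_eq_card, ← h, Matrix.charpoly_natDegree_eq_dim]
  induction hp using Submonoid.closure_induction with
  | mem x hx =>
    rcases hx with ⟨a, rfl⟩ | ⟨a, rfl⟩
    · simp [Algebra.algebraMap_eq_smul_one, c]
    · have := congrArg (eval (-a)) h
      rw [Matrix.eval_charpoly, eval_multiset_prod, Multiset.map_map] at this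
      have e : aeval A (X + C a) = -(Matrix.scalar n (-a) - A) := by
        rw [map_neg, neg_sub, sub_neg_eq_add, map_add, aeval_X, aeval_C]
        rfl
      rw [e, Matrix.det_neg, this, ← c, ← Multiset.card_map, ← Multiset.prod_map_neg,
        Multiset.map_map]
      refine congrArg _ (Multiset.map_congr rfl fun z _ => ?_)
      simp [add_comm]
  | one => simp
  | mul x y _ _ hx hy => simp [hx, hy]

theorem det_aeval {T : End E V} {Z : Multiset E}
    (h : T.charpoly = (Z.map fun z => X - C z).prod) (p : E[X]) :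
    LinearMap.det (aeval T p) = (Z.map fun z => p.eval z).prod := by
  classical
  let b := Module.finBasis E V
  let φ := algebraMap E (AlgebraicClosure E)
  have := mdet (A := (LinearMap.toMatrixAlgEquiv b T).map φ) (Z := Z.map φ) (by
    rw [Matrix.charpoly_map, show (LinearMap.toMatrixAlgEquiv b T).charpoly = _ from
      LinearMap.charpoly_toMatrix T b, h, Polynomial.map_multiset_prod]
    simp) (IsAlgClosed.splits (p.map φ))
  refine φ.injective ?_
  rw [← LinearMap.det_toMatrix b, RingHom.map_det, map_multiset_prod]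
  refine Eq.trans (congrArg _ ?_) (this.trans ?_)
  · change φ.mapMatrix (LinearMap.toMatrixAlgEquiv b (aeval T p)) = _
    rw [← aeval_algHom_apply]
    exact map_aeval_eq_aeval_map (by ext; simp [Matrix.algebraMap_matrix_apply, apply_ite φ]) _ _
  · simp only [Multiset.map_map, Function.comp, eval_map, eval₂_at_apply]

theorem card_eq {T : End E V} {Z : Multiset E} (h : T.charpoly = (Z.map fun z => X - C z).prod) :
    Multiset.card Z = finrank E V := by
  rw [← natDegree_multiset_prod_X_sub_C_eq_card, ← h, T.charpoly_natDegree]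

theorem eig_inv [Infinite E] (P : V →ₗ[E] V' →ₗ[E] E) (hl : ∀ x, (∀ y, P x y = 0) → x = 0)
    (hr : ∀ y, (∀ x, P x y = 0) → y = 0) {T : End E V} {T' : End E V'} {Z Z' : Multiset E}
    (h : T.charpoly = (Z.map fun z => X - C z).prod)
    (h' : T'.charpoly = (Z'.map fun z => X - C z).prod) (h0 : ∀ z ∈ Z, z ≠ 0)
    (e : ∀ x y, P (T x) (T' y) = P x y) : Z' = Z.map fun z => z⁻¹ := by
  rw [← roots_multiset_prod_X_sub_C Z', ← roots_multiset_prod_X_sub_C (Z.map _)]
  refine congrArg _ (Polynomial.funext fun r => ?_)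
  have := pdet P hl hr (F := aeval T (X : E[X])) (F' := aeval T' (C r - X)) (G := aeval T (C r * X - 1))
    (G' := 1) fun x y => by simp [e, Algebra.algebraMap_eq_smul_one]
  rw [det_aeval h, det_aeval h', det_aeval h, map_one, mul_one] at this
  refine mul_left_cancel₀ (a := (Z.map fun z => eval z X).prod)
    (Multiset.prod_ne_zero (by simpa using fun a => h0 0 a rfl)) ?_
  simp only [eval_multiset_prod, Multiset.map_map, Function.comp, eval_sub, eval_X, eval_C,
    eval_mul, eval_one] at this ⊢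
  rw [this, ← Multiset.prod_map_mul]
  refine congrArg _ (Multiset.map_congr rfl fun z hz => ?_)
  rw [mul_sub, mul_inv_cancel₀ (h0 z hz), mul_comm]

end Pool.Agent.EP
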