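import Pool.Agent.Lib.MP_b4b3cb_nt.Par.LocR
import Pool.Agent.Lib.MP_b4b3cb_nt.Eps.Blk

/-! Tame inertia acts transitively on the roots of a uniformiser. -/

namespace Pool.Agent.EP

open scoped Classical Pointwise
open NumberField Pool.Agent.Stark Pool.Agent.SP Polynomial
open SC hiding Hm Rp V T Two Cob Sel Spl cup dq Cz Sz res gs

theorem eq_of_pow {R : Type} [CommRing R] [IsDomain R] {Q : Ideal R} (hQ : Q.IsPrime) {m : ℕ}
    {a b : R} (h : a ^ m = 1) (h' : b ^ m = 1) (hm : (m : R) ∉ Q) (hab : a - b ∈ Q) : a = b := by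
  by_contra hne
  have h1 := (Commute.all a b).geom_sum₂_mul m
  rw [h, h', sub_self] at h1
  have h4 := congrArg (Ideal.Quotient.mk Q) ((mul_eq_zero.1 h1).resolve_right (sub_ne_zero.2 hne))
  simp only [map_sum, map_mul, map_pow, map_zero, ← Ideal.Quotient.eq.2 hab] at h4
  rw [geom_sum₂_self, ← map_pow, ← map_natCast (Ideal.Quotient.mk Q), ← map_mul,
    Ideal.Quotient.eq_zero_iff_mem] at h4
  exact hQ.one_notMem (h ▸ Q.pow_mem_of_mem (hQ.mem_of_pow_mem _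
    ((hQ.mem_or_mem h4).resolve_left hm)) m (Nat.pos_of_ne_zero fun e => hm (by simp [e])))

theorem half_mod {R : Type} [Field R] [CharZero R] {ξ : R} {N k : ℕ} (h : IsPrimitiveRoot ξ N)
    (h0 : 0 < N) (e : Even N) (hk : ξ ^ k = -1) : ∃ l, Odd l ∧ k = N / 2 * l := by
  have := (h.pow_eq_one_iff_dvd (k * 2)).1 (by rw [pow_mul, hk, neg_one_sq])
  rw [← Nat.div_mul_cancel e.two_dvd] at this
  obtain ⟨l, rfl⟩ := Nat.dvd_of_mul_dvd_mul_right two_pos this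
  rw [pow_mul, half h h0 e] at hk
  exact ⟨l, Nat.not_even_iff_odd.1 fun a => by rw [a.neg_one_pow] at hk; norm_num at hk, rfl⟩

section

variable {K F : Type} [Field K] [NumberField K] [Field F] [NumberField F] [Algebra K F]
  [IsGalois K F] (Q : Pr F)

theorem card_ine : Nat.card {g : F ≃ₐ[K] F // ∀ x : 𝓞 F, g • x - x ∈ Q.asIdeal} = eI K Q := by
  have hG := IsGaloisGroup.of_isFractionRing (F ≃ₐ[K] F) (𝓞 K) (𝓞 F) K F
  have h0 := SplitAux.lies (F := K) Q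
  have h1 := Q.isPrime
  have h2 := (below K Q).isPrime
  have hfin : Finite (𝓞 K ⧸ (below K Q).asIdeal) :=
    Ideal.finiteQuotientOfFreeOfNeBot _ (below K Q).ne_bot
  have h3 := Ideal.card_inertia_eq_ramificationIdxIn (G := F ≃ₐ[K] F) (below K Q).asIdeal Q.asIdeal
  rw [Ideal.ramificationIdxIn_eq_ramificationIdx _ Q.asIdeal (F ≃ₐ[K] F)] at h3
  rw [eI, ← h3]
  rfl

theorem eI_eq (E : IntermediateField K F)
    (hE : ∀ g : F ≃ₐ[K] F, (∀ x : 𝓞 F, g • x - x ∈ Q.asIdeal) → ∀ y ∈ E, g y = y) :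
    eI E Q = eI K Q := by
  rw [← card_ine, ← card_ine]
  exact Nat.card_eq_of_bijective (fun g => ⟨g.1.restrictScalars K, g.2⟩) ⟨fun g g' h =>
    Subtype.ext (AlgEquiv.restrictScalars_injective K (congrArg Subtype.val h)), fun g =>
    ⟨⟨AlgEquiv.ofRingEquiv (f := g.1.toRingEquiv) fun y => hE g.1 g.2 y.1 y.2, g.2⟩, rfl⟩⟩

end

variable {K Ω : Type} [Field K] [NumberField K] [Field Ω] [Algebra K Ω] [IsAlgClosed Ω]
  [IsGalois K Ω] [CharZero Ω] {𝔓 : Ideal (𝓞 Ω)}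

omit [IsAlgClosed Ω] [CharZero Ω] in
theorem ex_int {N : ℕ} (hN : (N : 𝓞 Ω) ∉ 𝔓) {ξ : Ω} (hξ : ξ ^ N = 1) : ∃ x : 𝓞 Ω, x = ξ :=
  ⟨⟨ξ, IsIntegral.of_pow (Nat.pos_of_ne_zero fun e => hN (by simp [e])) (hξ ▸ isIntegral_one)⟩, rfl⟩

omit [NumberField K] [IsAlgClosed Ω] [IsGalois K Ω] [CharZero Ω] in
theorem fr_root (h : 𝔓.IsMaximal) {g : Gal(Ω/K)} {n N : ℕ} (hg : IsFr 𝔓 n g) (hN : (N : 𝓞 Ω) ∉ 𝔓)
    {ξ : Ω} (hξ : ξ ^ N = 1) : g ξ = ξ ^ n := by
  obtain ⟨x, rfl⟩ := ex_int hN hξ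
  have e : x ^ N = 1 := RingOfIntegers.ext hξ
  exact congrArg RingOfIntegers.val (eq_of_pow h.isPrime (by rw [← smul_pow', e, smul_one])
    (by rw [pow_right_comm, e, one_pow]) hN (hg x))

omit [NumberField K] [IsAlgClosed Ω] [IsGalois K Ω] [CharZero Ω] in
theorem ine_fr {g : Gal(Ω/K)} (hg : g ∈ Ine K 𝔓) : IsFr 𝔓 1 g := fun x => by
  rw [pow_one]; exact hg x

omit [NumberField K] [IsAlgClosed Ω] [IsGalois K Ω] [CharZero Ω] in
theorem ine_root (h : 𝔓.IsMaximal) {g : Gal(Ω/K)} (hg : g ∈ Ine K 𝔓) {N : ℕ} (hN : (N : 𝓞 Ω) ∉ 𝔓)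
    {α β c : Ω} (e : α ^ N = β ^ N) (h0 : β ≠ 0) (hβ : g β = c * β) : g α = c * α := by
  have := fr_root h (ine_fr hg) hN (ξ := α / β)
    (by rw [div_pow, e, div_self (pow_ne_zero _ h0)])
  rw [← div_mul_cancel₀ α h0, map_mul, this, hβ, pow_one, mul_left_comm]

theorem unr {v : Pr K} (hv : Over 𝔓 v) {ϖ : K} (h1 : og v ϖ = 1) {b : Ω} {e : ℕ}
    (hb : b ^ e = algebraMap K Ω ϖ) (fx : ∀ g ∈ Ine K 𝔓, g b = b) : e = 1 := by
  have T := facts K Ω
  obtain ⟨F, hF⟩ : ∃ F : FiniteGaloisIntermediateField K Ω, b ∈ F.toIntermediateField :=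
    ⟨.adjoin K {b}, FiniteGaloisIntermediateField.subset_adjoin K {b} rfl⟩
  have := NumberField.of_module_finite K F
  obtain ⟨Q, hQ⟩ := T.pr.under F 𝔓 hv.1
  obtain rfl := T.pr.uniq hv (T.pr.below hQ)
  let y : F := ⟨b, hF⟩
  have h2 : ∀ g : F ≃ₐ[K] F, (∀ x : 𝓞 F, g • x - x ∈ Q.asIdeal) → g y = y := fun g hg => by
    have c : ∀ x : 𝓞 F, g.liftNormal Ω • algebraMap _ (𝓞 Ω) x = algebraMap _ _ (g • x) :=
      fun x => RingOfIntegers.ext (g.liftNormal_commutes Ω x)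
    obtain ⟨h, h3, h4⟩ := T.pr.trans hQ (𝔓' := (g.liftNormal Ω)⁻¹ • 𝔓)
      ⟨T.pr.smul_max _ hv.1, fun x => by
        rw [← T.pr.mem_smul (g.liftNormal Ω), smul_inv_smul, c, ← hQ.2]
        exact ⟨fun a => by simpa using add_mem (hg x) a, fun a => by simpa using sub_mem a (hg x)⟩⟩
    obtain ⟨l, l1, l2⟩ := T.fr.res (F := F) hv.1 (g.liftNormal Ω * h)
      (by rw [Dec, MulAction.mem_stabilizer_iff, mul_smul, h4, smul_inv_smul]) fun x => by
        rw [mul_smul, show h • algebraMap _ (𝓞 Ω) x = algebraMap _ _ x from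
          RingOfIntegers.ext (h3 x), c, ← map_sub, ← hQ.2]
        exact hg x
    have := fx _ l2
    rw [AlgEquiv.mul_apply, AlgEquiv.mul_apply, show l⁻¹ b = b from (Gs K Ω F).inv_mem l1.2 y,
      show h b = b from h3 y] at this
    exact Subtype.ext ((g.liftNormal_commutes Ω y).symm.trans this)
  have h3 := eI_eq Q (IntermediateField.adjoin K {y}) fun g hg z hz => by
    have h3 : IntermediateField.adjoin K {y} ≤ IntermediateField.fixedField (Subgroup.zpowers g) := by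
      rw [IntermediateField.adjoin_simple_le_iff, IntermediateField.mem_fixedField_iff]
      rintro _ ⟨n, rfl⟩
      exact MulAction.mem_stabilizer_iff.1
        (Subgroup.zpow_mem (MulAction.stabilizer (F ≃ₐ[K] F) y) (h2 g hg) n)
    exact (IntermediateField.mem_fixedField_iff _ _).1 (h3 hz) g (Subgroup.mem_zpowers g)
  have h4 := og_algebraMap Q (⟨y, IntermediateField.mem_adjoin_simple_self K y⟩ :
    IntermediateField.adjoin K {y})
  have h5 := og_algebraMap Q ϖ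
  have h6 : og Q (y ^ e) = e * og Q y := by rw [og, og, ord_pow]
  have e0 : (eI K Q : ℤ) ≠ 0 := by exact_mod_cast (SplitAux.eI_pos Q).ne'
  change og Q y = _ at h4
  rw [← show y ^ e = algebraMap K F ϖ from Subtype.ext hb, h6, h4, h3, mul_left_comm, h1] at h5
  exact Int.natCast_dvd_ofNat.1 ⟨_, (mul_left_cancel₀ e0 h5).symm⟩ |> Nat.dvd_one.1

theorem sur {v : Pr K} (hv : Over 𝔓 v) {ϖ : K} (h1 : og v ϖ = 1) {N : ℕ} (hN : (N : 𝓞 Ω) ∉ 𝔓)
    {α : Ω} (hα : α ^ N = algebraMap K Ω ϖ) :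
    ∃ t ∈ Ine K 𝔓, ∃ η : 𝓞 Ω, IsPrimitiveRoot η N ∧ t α = η * α := by
  have N0 : N ≠ 0 := fun e => hN (by simp [e])
  have α0 : α ≠ 0 := fun e => by
    rw [e, zero_pow N0, eq_comm, map_eq_zero] at hα
    simp [hα, og, ord] at h1
  have p : ∀ g : Gal(Ω/K), (g α / α) ^ N = 1 := fun g => by
    rw [div_pow, ← map_pow, hα, g.commutes, ← hα, div_self (pow_ne_zero _ α0)]
  let θ : Ine K 𝔓 →* Ωˣ := MonoidHom.toHomUnits
    { toFun := fun g => g.1 α / α
      map_one' := div_self α0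
      map_mul' := fun g h => by
        rw [div_eq_iff α0, mul_comm (_ / _), mul_assoc, div_mul_cancel₀ _ α0]
        conv_lhs => rw [Subgroup.coe_mul, AlgEquiv.mul_apply, ← div_mul_cancel₀ (h.1 α) α0, map_mul,
          fr_root hv.1 (ine_fr g.2) hN (p _), pow_one] }
  have := NeZero.mk N0
  have : Finite θ.range := Finite.of_injective _ (Subgroup.inclusion_injective
    (show θ.range ≤ rootsOfUnity N Ω by rintro _ ⟨g, rfl⟩; exact Units.ext (p g)))
  obtain ⟨⟨_, t, rfl⟩, ht⟩ := (isCyclic_of_injective_ringHom ((Units.coeHom Ω).comp θ.range.subtype)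
    (Units.val_injective.comp Subtype.val_injective)).exists_monoid_generator
  obtain ⟨η, hη⟩ := ex_int hN (p t)
  obtain ⟨e, he⟩ := orderOf_dvd_of_pow_eq_one (p t)
  have := unr hv h1 (b := α ^ orderOf (t.1 α / α)) (e := e) (by rw [← pow_mul, ← he, hα])
    fun g hg => by
      obtain ⟨n, hn⟩ := ht ⟨_, ⟨g, hg⟩, rfl⟩
      have : (t.1 α / α) ^ n = g α / α := 
        (Units.val_pow_eq_pow_val (θ t) n).symm.trans (congrArg (fun x => (x.1.1 : Ω)) hn)
      rw [map_pow, ← div_mul_cancel₀ (g α) α0, ← this, mul_pow, pow_right_comm, pow_orderOf_eq_one,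
        one_pow, one_mul]
  rw [this, mul_one] at he
  exact ⟨t, t.2, η, IsPrimitiveRoot.of_map_of_injective (f := algebraMap _ Ω)
    (by rw [he]; exact hη ▸ IsPrimitiveRoot.orderOf _) RingOfIntegers.coe_injective,
    by rw [hη, div_mul_cancel₀ _ α0]⟩

end Pool.Agent.EP
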