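import Pool.Agent.Lib.MP_b4b3cb_nt.Eps.Loc3
import Pool.Agent.Lib.MP_b4b3cb_nt.Par.Main2

/-! The parity of the Selmer group and the product of the local constants. -/

namespace Pool.Agent.EP

open scoped Classical Pointwise
open Module NumberField Pool.Agent.Stark Pool.Agent.SP Matrix IsDedekindDomain Finset
open SC hiding Hm Rp V T Two Cob Sel Spl cup dq Cz Sz res Dec Ine cyc gs
open SelTwo hiding Cob

theorem main3 (L : Type) [Field L] [NumberField L] [IsCMField L] (E : Type)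
    [NontriviallyNormedField E] [NormedAlgebra ℚ_[2] E] [FiniteDimensional ℚ_[2] E] (n : ℕ)
    (hn : Even n) (h0 : n ≠ 0) (ρ : Gal L →* Matrix (Fin n) (Fin n) E) (cj : Gal L → Gal L)
    (hcj : IsCj cj) (B : Matrix (Fin n) (Fin n) E) (hB : Pol ρ (cyc E) cj B)
    (inv : ∀ 𝔓 : Idl L, 𝔓.IsMaximal → fdim (ρ '' Dec 𝔓) = 0)
    (Q : HeightOneSpectrum (𝓞 L) → Idl L) (hQ : ∀ w, (Q w).IsMaximal ∧ (Q w).under _ = w.asIdeal)
    (s : HeightOneSpectrum (𝓞 (maximalRealSubfield L)) → HeightOneSpectrum (𝓞 L))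
    (hs : ∀ v, (s v).under _ = v) (D : Finset (HeightOneSpectrum (𝓞 (maximalRealSubfield L))))
    (hD : ∀ v, v ∈ D ↔ 2 ∈ v.asIdeal) (Y : _ → Submodule E (Gal L → Fin n → E))
    (hY : ∀ v ∈ D, ¬ Nonsplit (Q (s v)) ∧ Cond ρ (Dec (Q (s v))) (Y v))
    (T : Finset (HeightOneSpectrum (𝓞 L))) (hT : ∀ w ∈ T, 2 ∉ w.asIdeal ∧ ∀ w' : HeightOneSpectrum _,
      w'.under (𝓞 (maximalRealSubfield L)) = w.under _ → w' ∈ T)
    (hU : ∀ w ∉ T, 2 ∉ w.asIdeal → ¬ Ram (Q w) ∧ ∀ g ∈ Ine (Q w), ρ g = 1)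
    (ϖ : HeightOneSpectrum (𝓞 (maximalRealSubfield L)) → L)
    (hϖ : ∀ w ∈ T, IsCMField.complexConj L (ϖ (w.under _)) = -ϖ (w.under _) ∧
      w.valuation L (ϖ (w.under _)) = WithZero.exp (-1))
    (Ψ : HeightOneSpectrum (𝓞 L) → AddChar (𝓞 L) E)
    (hΨ : ∀ w ∈ T, Ψ w ≠ 1 ∧ (∀ x ∈ w.asIdeal, Ψ w x = 1) ∧ ∀ w' : HeightOneSpectrum _,
      w'.asIdeal = w.asIdeal.map (IsCMField.ringOfIntegersComplexConj L) →
      ∀ x, Ψ w' (IsCMField.ringOfIntegersComplexConj L x) = Ψ w x)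
    (e : _ → E) (he : ∀ w ∈ T, Eps ρ (Q w) (ϖ (w.under _)) (Ψ w) (e w)) :
    (Submodule.span E (Sel ρ cj B (fun v => Q (s v)) Y)).FG ∧
      (-1) ^ (h1 ρ ⊤ (Sel ρ cj B (fun v => Q (s v)) Y) + ∑ v ∈ D, h1 ρ (Dec (Q (s v))) (Y v)) =
        ∏ w ∈ T, e w := by
  obtain ⟨m, hm⟩ := even_iff_exists_two_mul.1 hn
  obtain ⟨hρ, int, uni, b1, b2, b3, b4⟩ := id hB
  obtain ⟨d, R, hR⟩ := exists_quad_cm L
  have : Algebra.IsAlgebraic (maximalRealSubfield L) (AlgebraicClosure L) :=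
    Algebra.IsAlgebraic.trans _ L _
  have : IsAlgClosure (maximalRealSubfield L) (AlgebraicClosure L) := ⟨inferInstance, this⟩
  have := IsUltrametricDist.of_normedAlgebra ℚ_[2] (L := E)
  have := FiniteDimensional.proper ℚ_[2] E
  have := charZero_of_injective_algebraMap (algebraMap ℚ_[2] E).injective
  obtain ⟨k, _, _, _, ⟨c⟩⟩ := exCF (E := E) (by
    rw [← map_ofNat (algebraMap ℚ_[2] E), norm_algebraMap']
    exact_mod_cast Padic.norm_p_lt_one (p := 2))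
  let := ZMod.algebra k 2
  have F := facts (maximalRealSubfield L) (AlgebraicClosure L)
  have F' := facts L (AlgebraicClosure L)
  obtain ⟨j, c', hc', hcj'⟩ := id hcj
  let s' : Gal(AlgebraicClosure L/maximalRealSubfield L) := AlgEquiv.ofRingEquiv (f := c') fun x =>
    j.injective ((hc' _).trans (x.2 (j.comp (algebraMap L _))))
  obtain ⟨J, hι, hJ, hH, hc⟩ := exIG R (F.cj.sq (g := s') hc').1 (fun hg => by
    have a := IsCMField.complexEmbedding_complexConj L (j.comp (algebraMap L _)) R.rt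
    have b := hc' (algebraMap L _ R.rt)
    rw [show c' _ = _ from hg R.rt] at b
    rw [← hR, R.tau_rt, map_neg, RingHom.comp_apply, ← b] at a
    exact GlAux.ne R ((map_eq_zero j).1 (by linear_combination (-1 / 2 : ℂ) * a))) cj hcj'
  choose P₀ hP₀ using F.pr.ex (maximalRealSubfield L)
  obtain ⟨π, -⟩ := exPlc P₀ hP₀
  obtain ⟨U, hU', uB⟩ := exVD (c := c) J (cycE E _ _) (akK π c).rd_chi (by
      rw [hJ, cycE_apply, F.fr.cyc_cj (g := s') hc']
      simp) (m := m) (by omega) ((Fintype.card_fin _).trans hm) ρ hρ int uni B b1 b2 b3 fun g => by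
    rw [hc, b4, show J.ι g = g.restrictScalars _ from AlgEquiv.ext (hι g)]
    rfl
  have ea : ∀ g, U.ρ.ac g = toLinAlgEquiv' (ρ g) := fun g => by rw [hU']; rfl
  have nd : ∀ x, (∀ y, U.B x y = 0) → x = 0 := fun x hx =>
    (nondegenerate_of_det_ne_zero (norm_ne_zero_iff.1 (b3 ▸ one_ne_zero))).eq_zero_of_ortho
      fun y => by rw [← toBilin'_apply', ← uB, hx]
  have ov : ∀ w, Over (Q w) w := fun w => ⟨(hQ w).1, fun x => by rw [← (hQ w).2]; rfl⟩
  have tw : ∀ w, 2 ∈ Q w ↔ 2 ∈ w.asIdeal := fun w => by rw [(ov w).2, map_ofNat]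
  have tv : ∀ w : Pr L, 2 ∈ w.asIdeal ↔ below (maximalRealSubfield L) w ∈ D := fun w => by
    rw [hD, (st_Qd st_Cn).mem_below, map_ofNat]
  have ts : ∀ v, 2 ∈ Q (s v) ↔ v ∈ D := fun v => by rw [tw, tv, below, hs]
  have sg : R.sg = (IsCMField.ringOfIntegersComplexConj L).toRingEquiv := by
    ext x
    exact congrArg (fun f => f (x : L)) hR
  have ac : ∀ w, (R.act w).asIdeal = w.asIdeal.map (IsCMField.ringOfIntegersComplexConj L) :=
    fun w => by rw [(st_Qd st_Cn).act_ideal, sg]; rfl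
  have ns : ∀ w, Nonsplit (Q w) ↔ R.act w = w := fun w => by
    rw [Nonsplit, (hQ w).2, HeightOneSpectrum.ext_iff, ac]
  have rm : ∀ w, Ram (Q w) ↔ eI (maximalRealSubfield L) w ≠ 1 := fun w => by rw [Ram, (hQ w).2, eI]
  have key : ∀ v, ∃ a, (v ∈ D → a = h1 ρ (Dec (Q (s v))) (Y v)) ∧
      (v ∉ D → s v ∈ T → Term ρ (Q (s v)) a ∧ (-1) ^ a = ∏ w ∈ T with w.under _ = v, e w) := by
    intro v
    by_cases h : v ∉ D ∧ s v ∈ T
    swap
    · exact ⟨_, fun _ => rfl, fun a b => (h ⟨a, b⟩).elim⟩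
    suffices ∃ a, Term ρ (Q (s v)) a ∧ (-1) ^ a = ∏ w ∈ T with w.under _ = v, e w from
      this.imp fun a b => ⟨fun c => (h.1 c).elim, fun _ _ => b⟩
    have h2 := (ts v).not.2 h.1
    rw [show ({w ∈ T | w.under _ = v} : Finset _) = {s v, R.act (s v)} from ext fun w => by
      rw [mem_filter, mem_insert, mem_singleton, ← R.below_eq_iff, below, below, hs]
      exact and_iff_right_of_imp fun a => (hT _ h.2).2 w (a.trans (hs v).symm)]
    replace h := h.2
    generalize s v = w at *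
    obtain ⟨s1, s2, s3⟩ := hΨ w h
    have s4 := s3 _ (ac w)
    obtain ⟨v1, v2⟩ := hϖ w h
    replace v2 : og w (ϖ (w.under _)) = 1 := by simp [og, ord, v2]
    rw [← hR] at v1
    rcases R.efg w with a | a | a
    · refine ⟨0, ⟨fun _ => rfl, fun b => (a.1 ((ns w).1 b)).elim, fun b => ((rm w).1 b a.2.1).elim⟩,
        ?_⟩
      have := he _ ((hT w h).2 _ (R.below_act w))
      rw [show (R.act w).under _ = w.under _ from R.below_act w] at this
      rw [prod_pair a.1.symm, locS hι R hH U ea nd (ov w) h2 v1 v2 s1 s2 (he w h) a.1 (ov _)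
        (by rw [sg]; exact s4) this, pow_zero]
    · rw [a.1] at s4
      rw [a.1, pair_eq_singleton, prod_singleton, locI hι R hH U ea nd (ov w) h2 v1 v2 s1 s2
        (he w h) a.1 a.2.1 (by rw [sg]; exact s4)]
      refine ⟨_, ⟨fun b => (b ((ns w).2 a.1)).elim, fun _ _ => ?_,
        fun b => ((rm w).1 b a.2.1).elim⟩, rfl⟩
      rw [fdim_eq (S := Fx ρ (Ine (Q w))) fun x => by simp [mem_inv ea, ea, toLinAlgEquiv'_apply]]
      exact (Submodule.finrank_quotient_add_finrank _).trans (Module.finrank_fin_fun E)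
    · obtain ⟨τ, t1, t2, t, σ, M, t3, t4, t5, t6⟩ := locR hι R hH U ea nd (ov w) h2 v1 v2 s1 s2
        (he w h) a.2.1 fun x hx => (Submodule.finrank_eq_zero.1
          ((fdim_inv hρ).symm.trans (inv _ (hQ w).1))).le (hU' ▸ hx)
      rw [a.1, pair_eq_singleton, prod_singleton, t6]
      exact ⟨_, ⟨fun b => (b ((ns w).2 a.1)).elim, fun _ b => (b ((rm w).2 (by omega))).elim,
        fun _ => ⟨t, σ, M, ⟨⟨τ, fun y z b => by
          rw [show z = τ • y from RingOfIntegers.ext b]; exact t1 y, fun x => by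
          rw [← hι, t3]; rfl, fun x => hR ▸ glK.tau R τ (hH ▸ t2) x⟩, t4⟩, t5, rfl⟩⟩, rfl⟩
  choose a a1 a2 using key
  have sT : ∀ v ∈ D ∪ T.image (·.under _), v ∉ D → s v ∈ T := fun v hv h => by
    obtain ⟨w, hw, rfl⟩ := mem_image.1 ((mem_union.1 hv).resolve_left h)
    exact (hT w hw).2 _ (hs _)
  refine (main2 L E n hn ρ cj hcj B hB inv (fun v => Q (s v)) (fun v => ⟨(hQ _).1, by
      rw [← Ideal.under_under (B := 𝓞 L), (hQ _).2]; exact congrArg (·.asIdeal) (hs v)⟩) (D ∪ T.image (·.under _))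
    (fun v hv 𝔓 h e => ?_) Y a (fun v h => ⟨(hY v ((ts v).1 h)).1, (hY v ((ts v).1 h)).2,
      a1 v ((ts v).1 h)⟩) fun v hv h => (a2 v ((ts v).not.1 h) (sT v hv ((ts v).not.1 h))).1).imp_right
    fun ev => ?_
  · obtain ⟨w, hw⟩ := F'.pr.under L 𝔓 h
    have e1 : below _ w = v := F.pr.uniq (F.pr.below hw) ⟨h, fun x => by rw [← e]; rfl⟩
    obtain ⟨g, -, rfl⟩ := F'.pr.trans (ov w) hw
    have o : 2 ∉ w.asIdeal := (tv w).not.2 fun b => hv (mem_union_left _ (e1 ▸ b))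
    obtain ⟨u1, u2⟩ := hU w (fun b => hv (mem_union_right _ (e1 ▸ mem_image_of_mem _ b))) o
    refine ⟨fun b => o ((hw.2 2).2 (by rwa [map_ofNat])), ?_, fun l hl => ?_⟩
    · rwa [Ram, show (g • Q w).under _ = w.asIdeal from Ideal.ext fun x => (hw.2 x).symm,
        ← (hQ w).2]
    · rw [← mul_inv_cancel_left g l, ← mul_inv_cancel_right (g⁻¹ * l) g, map_mul, map_mul,
        u2 _ ((F'.pr.ine_conj _ _ _).1 hl), one_mul, ← map_mul, mul_inv_cancel, map_one]
  · rw [← sum_sdiff subset_union_left, add_comm (∑ v ∈ _, _), ← add_assoc, sum_congr rfl a1] at ev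
    rw [← prod_fiberwise_of_maps_to (g := (·.under (𝓞 (maximalRealSubfield L))))
      (t := (D ∪ T.image (·.under _)) \ D) fun w hw =>
      mem_sdiff.2 ⟨mem_union_right D (mem_image_of_mem _ hw), (tv w).not.1 (hT w hw).1⟩,
      ← prod_congr rfl fun v hv =>
        (a2 v (mem_sdiff.1 hv).2 (sT v (mem_sdiff.1 hv).1 (mem_sdiff.1 hv).2)).2,
      prod_pow_eq_pow_sum]
    exact (eq_inv_of_mul_eq_one_left (by rw [← pow_add, ev.neg_one_pow])).trans
      (by rw [← inv_pow, inv_neg_one])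

end Pool.Agent.EP
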